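import Pool.Agent.H85.STAR.Core

namespace H85STAR

open Finset Polynomial

lemma natDegree_det_le {m N : ℕ} (F : Matrix (Fin m) (Fin m) ℚ[X])
    (hF : ∀ i j, (F i j).natDegree ≤ N) : F.det.natDegree ≤ m * N := by
  rw [Matrix.det_apply]
  apply Polynomial.natDegree_sum_le_of_forall_le
  intro σ _
  refine (Polynomial.natDegree_smul_le _ _).trans ?_
  refine (Polynomial.natDegree_prod_le _ _).trans ?_
  refine (Finset.sum_le_sum (fun i _ => hF (σ i) i)).trans ?_
  simp

/-- the expansion around `1` : `(X-1)^L` divides the sparse polynomial. -/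
lemma sparse_dvd {ι : Type*} [Fintype ι] (c : ι → ℚ) (e : ι → ℕ) (L : ℕ)
    (h : ∀ j < L, ∑ w, c w * (Nat.choose (e w) j : ℚ) = 0) :
    (X - 1 : ℚ[X]) ^ L ∣ ∑ w, C (c w) * X ^ (e w) := by
  obtain ⟨E, hE⟩ : ∃ E, ∀ w, e w ≤ E := by
    refine ⟨∑ w, e w, fun w => ?_⟩
    exact Finset.single_le_sum (f := e) (fun _ _ => Nat.zero_le _) (Finset.mem_univ w)
  have h1 : ∀ w, (X : ℚ[X]) ^ (e w) = ∑ j ∈ Finset.range (E + 1), (X - 1) ^ j * C ((e w).choose j : ℚ) := by
    intro w
    have := add_pow (X - 1 : ℚ[X]) 1 (e w)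
    rw [sub_add_cancel] at this
    rw [this]
    rw [← Finset.sum_subset (s₁ := Finset.range (e w + 1)) (s₂ := Finset.range (E + 1))]
    · apply Finset.sum_congr rfl
      intro j _
      simp
    · intro j hj
      rw [Finset.mem_range] at hj ⊢
      have := hE w
      omega
    · intro j _ hj
      rw [Finset.mem_range] at hj
      rw [Nat.choose_eq_zero_of_lt (by omega)]
      simp
  have h2 : ∑ w, C (c w) * (X : ℚ[X]) ^ (e w) =
      ∑ j ∈ Finset.range (E + 1), (X - 1) ^ j * C (∑ w, c w * (Nat.choose (e w) j : ℚ)) := by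
    calc ∑ w, C (c w) * (X : ℚ[X]) ^ (e w)
        = ∑ w, ∑ j ∈ Finset.range (E + 1), (X - 1) ^ j * C (c w * (Nat.choose (e w) j : ℚ)) := by
          apply Finset.sum_congr rfl
          intro w _
          rw [h1 w, Finset.mul_sum]
          apply Finset.sum_congr rfl
          intro j _
          rw [C_mul]
          ring
      _ = _ := by
          rw [Finset.sum_comm]
          apply Finset.sum_congr rfl
          intro j _
          rw [map_sum, Finset.mul_sum]
  rw [h2]
  apply Finset.dvd_sum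
  intro j _
  rcases lt_or_ge j L with hj | hj
  · rw [h j hj]; simp
  · exact Dvd.dvd.mul_right (pow_dvd_pow _ hj) _

lemma euler_pow_dvd {ι : Type*} [Fintype ι] (c : ι → ℚ) (e : ι → ℕ) (L : ℕ)
    (h : ∀ j < L, ∑ w, c w * (Nat.choose (e w) j : ℚ) = 0) (i : ℕ) :
    (X - 1 : ℚ[X]) ^ (L - i) ∣ ∑ w, C ((e w : ℚ) ^ i * c w) * X ^ (e w) := by
  induction i with
  | zero => simpa using sparse_dvd c e L h
  | succ i ih =>
    have h1 := Polynomial.pow_sub_one_dvd_derivative_of_pow_dvd ih
    have h2 : ∑ w, C ((e w : ℚ) ^ (i + 1) * c w) * (X : ℚ[X]) ^ (e w) =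
        X * derivative (∑ w, C ((e w : ℚ) ^ i * c w) * X ^ (e w)) := by
      rw [derivative_sum, Finset.mul_sum]
      apply Finset.sum_congr rfl
      intro w _
      rw [derivative_C_mul_X_pow]
      rcases Nat.eq_zero_or_pos (e w) with h0 | h0
      · rw [h0]; simp
      · have h3 : (X : ℚ[X]) ^ (e w) = X * X ^ (e w - 1) := by
          rw [← pow_succ']; congr 1; omega
        rw [h3, pow_succ]
        have h4 : (e w : ℚ) ^ i * (e w : ℚ) * c w = (e w : ℚ) ^ i * c w * (e w : ℚ) := by ring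
        rw [h4]
        ring
    rw [h2]
    apply Dvd.dvd.mul_left
    have h3 : L - (i + 1) = L - i - 1 := by omega
    rw [h3]
    exact h1

lemma X_sub_one_coprime_X : IsCoprime (X - 1 : ℚ[X]) X := ⟨-1, 1, by ring⟩

lemma comp_dvd (α : ℚ) (hα : α ≠ 0) (g : ℕ) (hg : 0 < g) : ∀ (e : ℕ) (W : ℚ[X]),
    (X - 1 : ℚ[X]) ^ e ∣ W.comp (C α * X ^ g) → (X - C α) ^ e ∣ W := by
  intro e
  induction e with
  | zero => intro W _; simp
  | succ e ih =>
    intro W hW
    have h0 : W.eval α = 0 := by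
      have h1 : (X - 1 : ℚ[X]) ∣ W.comp (C α * X ^ g) := (dvd_pow_self _ (Nat.succ_ne_zero e)).trans hW
      obtain ⟨V, hV⟩ := h1
      have h2 := congrArg (Polynomial.eval 1) hV
      rw [eval_comp] at h2
      simpa using h2
    obtain ⟨W₁, hW₁⟩ := Polynomial.dvd_iff_isRoot.mpr h0
    -- geometric sum
    obtain ⟨G, hG⟩ : (X - 1 : ℚ[X]) ∣ X ^ g - 1 := by
      have := sub_dvd_pow_sub_pow (X : ℚ[X]) 1 g
      rwa [one_pow] at this
    have hG1 : G.eval 1 ≠ 0 := by
      have h1 := congrArg derivative hG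
      have h2 := congrArg (Polynomial.eval 1) h1
      rw [derivative_mul, derivative_sub, derivative_sub, derivative_X_pow, derivative_X,
        derivative_one] at h2
      simp at h2
      rw [← h2]
      exact_mod_cast hg.ne'
    have hcomp : W.comp (C α * X ^ g) = (X - 1) * (C α * G * W₁.comp (C α * X ^ g)) := by
      rw [hW₁, mul_comp, sub_comp, X_comp, C_comp]
      have : C α * X ^ g - C α = C α * ((X - 1) * G) := by rw [← hG]; ring
      rw [this]; ring
    rw [hcomp, pow_succ'] at hW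
    have hX1 : (X - 1 : ℚ[X]) ≠ 0 := by
      have := Polynomial.X_sub_C_ne_zero (1 : ℚ)
      simpa using this
    have hW2 := (mul_dvd_mul_iff_left hX1).mp hW
    have hcop : IsCoprime ((X - 1 : ℚ[X]) ^ e) (C α * G) := by
      apply IsCoprime.pow_left
      have hirr : Irreducible (X - 1 : ℚ[X]) := by
        have := Polynomial.irreducible_X_sub_C (1 : ℚ)
        simpa using this
      rw [hirr.coprime_iff_not_dvd]
      intro hd
      obtain ⟨V, hV⟩ := hd
      have h2 := congrArg (Polynomial.eval 1) hV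
      simp at h2
      rcases h2 with h2 | h2
      · exact hα h2
      · exact hG1 h2
    have hW3 := hcop.dvd_of_dvd_mul_left hW2
    rw [hW₁, pow_succ']
    exact mul_dvd_mul_left _ (ih W₁ hW3)

lemma zero_est : ZeroStmt := by
  intro g z M N K I b τ u hg hzg hMg hb0 hτ0 hτ1 hu0 hK hI
  classical
  set S : Finset (Fin M) := Finset.univ.filter (fun k : Fin M => ∃ n, b (k, n) ≠ 0) with hS
  set m : ℕ := S.card with hm
  have hmM : m ≤ M := by
    have := Finset.card_le_univ S
    simpa using this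
  set κ : Fin m → Fin M := fun j => S.orderEmbOfFin rfl j with hκ
  have hκinj : Function.Injective κ := (S.orderEmbOfFin rfl).injective
  have hκS : ∀ j, κ j ∈ S := fun j => S.orderEmbOfFin_mem rfl j
  have hκim : Finset.univ.image κ = S := by
    apply Finset.eq_of_subset_of_card_le
    · intro k hk
      rw [Finset.mem_image] at hk
      obtain ⟨j, _, rfl⟩ := hk
      exact hκS j
    · rw [Finset.card_image_of_injective _ hκinj]
      simp [hm]
  have hmpos : 0 < m := by
    rw [hm, Finset.card_pos]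
    by_contra hne
    rw [Finset.not_nonempty_iff_eq_empty] at hne
    apply hb0
    funext w
    by_contra hw
    have : w.1 ∈ S := by
      rw [hS, Finset.mem_filter]
      exact ⟨Finset.mem_univ _, w.2, hw⟩
    rw [hne] at this
    exact absurd this (Finset.notMem_empty _)
  set e : Fin M → Fin (N + 1) → ℕ := fun k n => g * (n : ℕ) + z * (k : ℕ) with he
  set F : Matrix (Fin m) (Fin m) ℚ[X] := fun i j =>
    ∑ n : Fin (N + 1), C ((e (κ j) n : ℚ) ^ (i : ℕ) * (b (κ j, n) : ℚ)) * X ^ (n : ℕ) with hF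
  have hdeg : F.det.natDegree ≤ m * N := by
    apply natDegree_det_le
    intro i j
    simp only [hF]
    apply Polynomial.natDegree_sum_le_of_forall_le
    intro n _
    refine (Polynomial.natDegree_C_mul_X_pow_le _ _).trans ?_
    exact Nat.lt_succ_iff.mp n.2
  -- nonvanishing
  have hne : F.det ≠ 0 := by
    have hex : ∀ j : Fin m, ∃ n : Fin (N + 1), b (κ j, n) ≠ 0 ∧ ∀ n' < n, b (κ j, n') = 0 := by
      intro j
      have h1 := hκS j
      rw [hS, Finset.mem_filter] at h1
      obtain ⟨_, n, hn⟩ := h1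
      set Z : Finset (Fin (N + 1)) := Finset.univ.filter (fun n => b (κ j, n) ≠ 0) with hZ
      have hZn : Z.Nonempty := ⟨n, by rw [hZ, Finset.mem_filter]; exact ⟨Finset.mem_univ _, hn⟩⟩
      refine ⟨Z.min' hZn, ?_, ?_⟩
      · exact (Finset.mem_filter.mp (Z.min'_mem hZn)).2
      · intro n' hn'
        by_contra hc
        have h2 : n' ∈ Z := by rw [hZ, Finset.mem_filter]; exact ⟨Finset.mem_univ _, hc⟩
        exact absurd (Z.min'_le n' h2) (not_le.mpr hn')
    choose ν hν1 hν2 using hex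
    set F' : Matrix (Fin m) (Fin m) ℚ[X] := fun i j =>
      ∑ n : Fin (N + 1), C ((e (κ j) n : ℚ) ^ (i : ℕ) * (b (κ j, n) : ℚ)) *
        X ^ ((n : ℕ) - (ν j : ℕ)) with hF'
    have hFF' : F = Matrix.of (fun i j => (X : ℚ[X]) ^ (ν j : ℕ) * F' i j) := by
      ext1 i j
      simp only [hF, hF', Matrix.of_apply]
      rw [Finset.mul_sum]
      apply Finset.sum_congr rfl
      intro n _
      rcases lt_or_ge n (ν j) with h | h
      · rw [hν2 j n h]; simp
      · have h' : (ν j : ℕ) ≤ (n : ℕ) := h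
        have : (X : ℚ[X]) ^ (n : ℕ) = X ^ (ν j : ℕ) * X ^ ((n : ℕ) - (ν j : ℕ)) := by
          rw [← pow_add]; congr 1; omega
        rw [this]; ring
    have hdet1 : F.det = (∏ j, (X : ℚ[X]) ^ (ν j : ℕ)) * F'.det := by
      rw [hFF']
      exact Matrix.det_mul_row _ _
    rw [hdet1]
    apply mul_ne_zero
    · rw [Finset.prod_ne_zero_iff]
      intro j _
      exact pow_ne_zero _ X_ne_zero
    · intro h0
      have h1 := congrArg (Polynomial.evalRingHom (0 : ℚ)) h0
      rw [RingHom.map_det, map_zero] at h1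
      have h2 : (Polynomial.evalRingHom (0 : ℚ)).mapMatrix F' =
          Matrix.of (fun i j => (b (κ j, ν j) : ℚ) *
            ((Matrix.transpose (Matrix.vandermonde (fun j => (e (κ j) (ν j) : ℚ)))) i j)) := by
        ext i j
        have h20 : (Polynomial.evalRingHom (0 : ℚ)).mapMatrix F' i j = (F' i j).eval 0 := rfl
        have h21 : (F' i j).eval 0 = ∑ n : Fin (N + 1), ((e (κ j) n : ℚ) ^ (i : ℕ) *
            (b (κ j, n) : ℚ)) * (0 : ℚ) ^ ((n : ℕ) - (ν j : ℕ)) := by
          simp only [hF']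
          rw [Polynomial.eval_finsetSum]
          apply Finset.sum_congr rfl
          intro n _
          rw [eval_mul, eval_C, eval_pow, eval_X]
        rw [h20, h21, Matrix.of_apply, Matrix.transpose_apply, Matrix.vandermonde_apply]
        rw [Finset.sum_eq_single (ν j)]
        · simp; ring
        · intro n _ hn
          rcases lt_or_ge n (ν j) with h | h
          · rw [hν2 j n h]; simp
          · have h' : (ν j : ℕ) < (n : ℕ) := lt_of_le_of_ne h (fun hh => hn (Fin.ext hh.symm))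
            rw [zero_pow (by omega)]; simp
        · intro h; exact absurd (Finset.mem_univ _) h
      rw [h2, Matrix.det_mul_row, Matrix.det_transpose] at h1
      rcases mul_eq_zero.mp h1 with h3 | h3
      · rw [Finset.prod_eq_zero_iff] at h3
        obtain ⟨j, _, hj⟩ := h3
        exact hν1 j (by exact_mod_cast hj)
      · rw [Matrix.det_vandermonde_eq_zero_iff] at h3
        obtain ⟨j1, j2, h4, h5⟩ := h3
        apply h5
        apply hκinj
        have h6 : g * (ν j1 : ℕ) + z * (κ j1 : ℕ) = g * (ν j2 : ℕ) + z * (κ j2 : ℕ) := by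
          simp only [he] at h4
          exact_mod_cast h4
        have h7 : z * (κ j1 : ℕ) ≡ z * (κ j2 : ℕ) [MOD g] := by
          have h8 : (g * (ν j1 : ℕ) + z * (κ j1 : ℕ)) % g = (g * (ν j2 : ℕ) + z * (κ j2 : ℕ)) % g := by
            rw [h6]
          rw [Nat.mul_add_mod, Nat.mul_add_mod] at h8
          exact h8
        have h9 : (κ j1 : ℕ) ≡ (κ j2 : ℕ) [MOD g] :=
          Nat.ModEq.cancel_left_of_coprime (by rw [Nat.gcd_comm]; exact hzg) h7
        have h10 : (κ j1 : ℕ) = (κ j2 : ℕ) :=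
          Nat.ModEq.eq_of_lt_of_lt h9 (lt_of_lt_of_le (κ j1).2 hMg) (lt_of_lt_of_le (κ j2).2 hMg)
        exact Fin.ext h10
  -- vanishing at a point
  have hvan : ∀ (α μ : ℚ) (L : ℕ), α ≠ 0 → μ ≠ 0 →
      (∀ i < L, ∑ w : Fin M × Fin (N + 1), ((b w : ℚ) * α ^ (w.2 : ℕ) * μ ^ (w.1 : ℕ)) *
        (Nat.choose (g * (w.2 : ℕ) + z * (w.1 : ℕ)) i : ℚ) = 0) →
      (X - C α) ^ (L + 1 - m) ∣ F.det := by
    intro α μ L hα hμ hL
    apply comp_dvd α hα g hg
    set A : Matrix (Fin m) (Fin m) ℚ[X] := (Polynomial.compRingHom (C α * X ^ g)).mapMatrix F with hA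
    have hdetA : A.det = F.det.comp (C α * X ^ g) := by
      rw [hA, ← RingHom.map_det]
      rfl
    rw [← hdetA]
    set v : Fin m → ℚ[X] := fun j => C (μ ^ (κ j : ℕ)) * X ^ (z * (κ j : ℕ)) with hv
    have hAv : ∀ i, (A.mulVec v) i = ∑ w : Fin M × Fin (N + 1),
        C (((g * (w.2 : ℕ) + z * (w.1 : ℕ) : ℕ) : ℚ) ^ (i : ℕ) *
          ((b w : ℚ) * α ^ (w.2 : ℕ) * μ ^ (w.1 : ℕ))) *
          X ^ (g * (w.2 : ℕ) + z * (w.1 : ℕ)) := by
      intro i
      rw [Fintype.sum_prod_type]
      have h1 : ∀ k : Fin M, k ∉ S → ∑ n : Fin (N + 1),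
          C (((g * (n : ℕ) + z * (k : ℕ) : ℕ) : ℚ) ^ (i : ℕ) *
          ((b (k, n) : ℚ) * α ^ (n : ℕ) * μ ^ (k : ℕ))) *
          (X : ℚ[X]) ^ (g * (n : ℕ) + z * (k : ℕ)) = 0 := by
        intro k hk
        apply Finset.sum_eq_zero
        intro n _
        have : b (k, n) = 0 := by
          by_contra hc
          apply hk
          rw [hS, Finset.mem_filter]
          exact ⟨Finset.mem_univ _, n, hc⟩
        rw [this]; simp
      rw [← Finset.sum_subset (Finset.subset_univ S) (fun k _ hk => h1 k hk), ← hκim,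
        Finset.sum_image (fun x _ y _ h => hκinj h)]
      simp only [Matrix.mulVec, dotProduct]
      apply Finset.sum_congr rfl
      intro j _
      have h22 : A i j = ∑ n : Fin (N + 1), (C ((e (κ j) n : ℚ) ^ (i : ℕ) * (b (κ j, n) : ℚ)) *
          X ^ (n : ℕ)).comp (C α * X ^ g) := by
        have h23 : A i j = (Polynomial.compRingHom (C α * X ^ g)) (F i j) := rfl
        rw [h23]
        simp only [hF]
        rw [map_sum]
        rfl
      rw [h22, Finset.sum_mul]
      apply Finset.sum_congr rfl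
      intro n _
      simp only [he, hv]
      rw [mul_comp, C_comp, pow_comp, X_comp, mul_pow, ← pow_mul, ← C_pow, pow_add]
      simp only [C_mul]
      ring
    have hdv : ∀ i, (X - 1 : ℚ[X]) ^ (L + 1 - m) ∣ (A.mulVec v) i := by
      intro i
      rw [hAv i]
      have := euler_pow_dvd (fun w : Fin M × Fin (N + 1) => (b w : ℚ) * α ^ (w.2 : ℕ) * μ ^ (w.1 : ℕ))
        (fun w => g * (w.2 : ℕ) + z * (w.1 : ℕ)) L hL i
      refine (pow_dvd_pow _ ?_).trans this
      have := i.2
      omega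
    have hadj : (A.adjugate).mulVec (A.mulVec v) = A.det • v := by
      rw [Matrix.mulVec_mulVec, Matrix.adjugate_mul, Matrix.smul_mulVec, Matrix.one_mulVec]
    have h1 : (X - 1 : ℚ[X]) ^ (L + 1 - m) ∣ A.det * v ⟨0, hmpos⟩ := by
      have h2 := congrFun hadj ⟨0, hmpos⟩
      rw [Pi.smul_apply, smul_eq_mul] at h2
      rw [← h2]
      simp only [Matrix.mulVec, dotProduct]
      apply Finset.dvd_sum
      intro i _
      apply Dvd.dvd.mul_left
      exact hdv i
    have hcop : IsCoprime ((X - 1 : ℚ[X]) ^ (L + 1 - m)) (v ⟨0, hmpos⟩) := by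
      apply IsCoprime.pow_left
      simp only [hv]
      apply IsCoprime.mul_right
      · have : IsUnit (C (μ ^ (κ ⟨0, hmpos⟩ : ℕ)) : ℚ[X]) :=
          Polynomial.isUnit_C.mpr (IsUnit.mk0 _ (pow_ne_zero _ hμ))
        exact (isCoprime_one_right (x := (X - 1 : ℚ[X]))).of_isCoprime_of_dvd_right this.dvd
      · exact IsCoprime.pow_right X_sub_one_coprime_X
    exact hcop.dvd_of_dvd_mul_right h1
  have hv1 := hvan 1 1 K one_ne_zero one_ne_zero (by
    intro i hi
    have := hK i hi
    have h2 : ((∑ w : Fin M × Fin (N + 1),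
      b w * (Nat.choose (g * (w.2 : ℕ) + z * (w.1 : ℕ)) i : ℤ) : ℤ) : ℚ) = 0 := by
      rw [this]; norm_num
    push_cast at h2
    simpa using h2)
  have hv2 := hvan τ u I hτ0 hu0 (by
    intro i hi
    rw [← hI i hi]
    apply Finset.sum_congr rfl
    intro w _
    ring)
  have hcop : IsCoprime ((X - C (1 : ℚ)) ^ (K + 1 - m)) ((X - C τ) ^ (I + 1 - m)) := by
    apply IsCoprime.pow
    exact Polynomial.isCoprime_X_sub_C_of_isUnit_sub (IsUnit.mk0 _ (sub_ne_zero.mpr (Ne.symm hτ1)))
  have hprod := hcop.mul_dvd hv1 hv2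
  have hdeg2 := Polynomial.natDegree_le_of_dvd hprod hne
  rw [Polynomial.natDegree_mul (pow_ne_zero _ (X_sub_C_ne_zero _)) (pow_ne_zero _ (X_sub_C_ne_zero _)),
    Polynomial.natDegree_pow, Polynomial.natDegree_pow, natDegree_X_sub_C, natDegree_X_sub_C] at hdeg2
  have h1 : m * N ≤ M * N := Nat.mul_le_mul_right _ hmM
  omega

theorem core_thm : CoreStmt := core zero_est

end H85STAR
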