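import Mathlib

namespace H85STAR

open Finset

lemma term_expand (e i E : ℕ) (s : ℤ) (hE : e ≤ E) :
    (Nat.choose e i : ℤ) * s ^ e =
      s ^ i * ∑ j ∈ Finset.range (E + 1),
        (Nat.choose (i + j) i : ℤ) * (s - 1) ^ j * (Nat.choose e (i + j) : ℤ) := by
  rcases le_or_gt i e with h | h
  · have h1 : s ^ e = s ^ i * s ^ (e - i) := by rw [← pow_add]; congr 1; omega
    have h2 : s ^ (e - i) = ∑ j ∈ Finset.range (e - i + 1), (s - 1) ^ j * ((e - i).choose j : ℤ) := by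
      have := add_pow (s - 1) 1 (e - i)
      rw [sub_add_cancel] at this
      rw [this]
      apply Finset.sum_congr rfl
      intro j _
      ring
    have h3 : ∑ j ∈ Finset.range (E + 1),
        (Nat.choose (i + j) i : ℤ) * (s - 1) ^ j * (Nat.choose e (i + j) : ℤ) =
        ∑ j ∈ Finset.range (e - i + 1),
        (Nat.choose (i + j) i : ℤ) * (s - 1) ^ j * (Nat.choose e (i + j) : ℤ) := by
      symm
      apply Finset.sum_subset
      · intro j hj
        rw [Finset.mem_range] at hj ⊢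
        omega
      · intro j _ hj
        rw [Finset.mem_range] at hj
        rw [Nat.choose_eq_zero_of_lt (show e < i + j by omega)]
        simp
    rw [h1, h2, h3, Finset.mul_sum, Finset.mul_sum, Finset.mul_sum]
    apply Finset.sum_congr rfl
    intro j hj
    rw [Finset.mem_range] at hj
    have h4 : e.choose (i + j) * (i + j).choose i = e.choose i * (e - i).choose ((i + j) - i) :=
      Nat.choose_mul (by omega)
    rw [Nat.add_sub_cancel_left] at h4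
    have h5 : (e.choose (i + j) : ℤ) * ((i + j).choose i : ℤ) = (e.choose i : ℤ) * ((e - i).choose j : ℤ) := by
      exact_mod_cast h4
    linear_combination (-(s ^ i) * (s - 1) ^ j) * h5
  · rw [Nat.choose_eq_zero_of_lt h]
    have : ∑ j ∈ Finset.range (E + 1),
        (Nat.choose (i + j) i : ℤ) * (s - 1) ^ j * (Nat.choose e (i + j) : ℤ) = 0 := by
      apply Finset.sum_eq_zero
      intro j _
      rw [Nat.choose_eq_zero_of_lt (show e < i + j by omega)]
      simp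
    rw [this]
    simp

lemma euler_dvd {ι : Type*} [Fintype ι] (b : ι → ℤ) (e : ι → ℕ) (K i : ℕ) (s : ℤ)
    (h : ∀ j < K, ∑ w, b w * (Nat.choose (e w) j : ℤ) = 0) :
    (s - 1) ^ (K - i) ∣ ∑ w, b w * (Nat.choose (e w) i : ℤ) * s ^ (e w) := by
  obtain ⟨E, hE⟩ : ∃ E, ∀ w, e w ≤ E := by
    refine ⟨∑ w, e w, fun w => ?_⟩
    exact Finset.single_le_sum (f := e) (fun _ _ => Nat.zero_le _) (Finset.mem_univ w)
  have h1 : ∑ w, b w * (Nat.choose (e w) i : ℤ) * s ^ (e w) =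
      ∑ j ∈ Finset.range (E + 1), (s ^ i * ((Nat.choose (i + j) i : ℤ) * (s - 1) ^ j)) *
        ∑ w, b w * (Nat.choose (e w) (i + j) : ℤ) := by
    calc ∑ w, b w * (Nat.choose (e w) i : ℤ) * s ^ (e w)
        = ∑ w, ∑ j ∈ Finset.range (E + 1), (s ^ i * ((Nat.choose (i + j) i : ℤ) * (s - 1) ^ j)) *
            (b w * (Nat.choose (e w) (i + j) : ℤ)) := by
          apply Finset.sum_congr rfl
          intro w _
          rw [mul_assoc, term_expand (e w) i E s (hE w), Finset.mul_sum, Finset.mul_sum]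
          apply Finset.sum_congr rfl
          intro j _
          ring
      _ = _ := by
          rw [Finset.sum_comm]
          apply Finset.sum_congr rfl
          intro j _
          rw [Finset.mul_sum]
  rw [h1]
  apply Finset.dvd_sum
  intro j _
  rcases lt_or_ge (i + j) K with hj | hj
  · rw [h (i + j) hj, mul_zero]
    exact dvd_zero _
  · apply Dvd.dvd.mul_right
    apply Dvd.dvd.mul_left
    apply Dvd.dvd.mul_left
    exact pow_dvd_pow _ (by omega)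

lemma root_exp (t g j : ℕ) (ht : t.Prime) (htg : ¬ t ∣ g) :
    ∃ g' : ℕ, ∀ v : ℤ, (t : ℤ) ∣ v - 1 → (t : ℤ) ^ j ∣ v ^ (g * g') - v := by
  rcases Nat.eq_zero_or_pos j with hj | hj
  · exact ⟨0, fun v _ => by rw [hj, pow_zero]; exact one_dvd _⟩
  · have hc : Nat.Coprime g (t ^ j) :=
      Nat.Coprime.pow_right j ((Nat.Prime.coprime_iff_not_dvd ht).mpr htg).symm
    obtain ⟨g', hg'⟩ := Nat.exists_mul_mod_eq_one_of_coprime hc (Nat.one_lt_pow hj.ne' ht.one_lt)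
    refine ⟨g', fun v hv => ?_⟩
    have h1 : g * g' = 1 + (t ^ j) * (g * g' / t ^ j) := by
      have := Nat.div_add_mod (g * g') (t ^ j)
      omega
    rw [h1, pow_add, pow_one, pow_mul]
    have h2 := dvd_sub_pow_of_dvd_sub hv j
    rw [one_pow] at h2
    have h3 : (t : ℤ) ^ j ∣ v ^ t ^ j - 1 := (pow_dvd_pow _ (Nat.le_succ j)).trans h2
    have h4 : v ^ t ^ j - 1 ∣ (v ^ t ^ j) ^ (g * g' / t ^ j) - 1 := by
      have := sub_dvd_pow_sub_pow (v ^ t ^ j) 1 (g * g' / t ^ j)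
      rwa [one_pow] at this
    have h5 : v * (v ^ t ^ j) ^ (g * g' / t ^ j) - v = v * ((v ^ t ^ j) ^ (g * g' / t ^ j) - 1) := by ring
    rw [h5]
    exact Dvd.dvd.mul_left (h3.trans h4) v

lemma exists_inv_mod (t y : ℕ) (q : ℤ) (ht : t.Prime) (hq : ¬ (t : ℤ) ∣ q) :
    ∃ qi : ℤ, (t : ℤ) ^ y ∣ q * qi - 1 := by
  have hc : IsCoprime q ((t : ℤ) ^ y) := by
    apply IsCoprime.pow_right
    exact ((Prime.coprime_iff_not_dvd (Nat.prime_iff_prime_int.mp ht)).mpr hq).symm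
  obtain ⟨u, v, huv⟩ := hc
  refine ⟨u, ⟨-v, ?_⟩⟩
  linear_combination huv

lemma divis (t g z M N K i x m : ℕ) (b : Fin M × Fin (N + 1) → ℤ) (p q a c : ℤ) (ht : t.Prime)
    (htg : ¬ t ∣ g) (hq : ¬ (t : ℤ) ∣ q) (hc : ¬ (t : ℤ) ∣ c) (hm : 1 ≤ m)
    (h1 : (t : ℤ) ^ m ∣ p - q) (h2 : (t : ℤ) ∣ a - c)
    (h3 : (t : ℤ) ^ x ∣ a ^ g * q ^ z - c ^ g * p ^ z)
    (hsys : ∀ j < K, ∑ w : Fin M × Fin (N + 1),
        b w * (Nat.choose (g * (w.2 : ℕ) + z * (w.1 : ℕ)) j : ℤ) = 0)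
    (hx : x ≤ m * (K - i)) :
    (t : ℤ) ^ x ∣ ∑ w : Fin M × Fin (N + 1),
        b w * (Nat.choose (g * (w.2 : ℕ) + z * (w.1 : ℕ)) i : ℤ) *
          (p ^ (w.2 : ℕ) * q ^ (N - (w.2 : ℕ)) * (a ^ (w.1 : ℕ) * c ^ (M - 1 - (w.1 : ℕ)))) := by
  set y : ℕ := max x m with hy
  have hxy : x ≤ y := le_max_left _ _
  have hmy : m ≤ y := le_max_right _ _
  obtain ⟨qi, hqi⟩ := exists_inv_mod t y q ht hq
  obtain ⟨ci, hci⟩ := exists_inv_mod t y c ht hc
  obtain ⟨g', hg'⟩ := root_exp t g y ht htg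
  set v : ℤ := p * qi with hv
  set w0 : ℤ := a * ci with hw0
  have hv1 : (t : ℤ) ^ m ∣ v - 1 := by
    have e1 : v - 1 = (p - q) * qi + (q * qi - 1) := by rw [hv]; ring
    rw [e1]
    exact dvd_add (Dvd.dvd.mul_right h1 _) ((pow_dvd_pow _ hmy).trans hqi)
  have hv1' : (t : ℤ) ∣ v - 1 := (dvd_pow_self _ (by omega)).trans hv1
  have hty : (t : ℤ) ∣ (t : ℤ) ^ y := dvd_pow_self _ (by omega)
  have hw1 : (t : ℤ) ∣ w0 - 1 := by
    have e1 : w0 - 1 = (a - c) * ci + (c * ci - 1) := by rw [hw0]; ring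
    rw [e1]
    exact dvd_add (Dvd.dvd.mul_right h2 _) (hty.trans hci)
  set s : ℤ := v ^ g' with hs
  have hsg : (t : ℤ) ^ y ∣ s ^ g - v := by
    have := hg' v hv1'
    rw [hs, ← pow_mul, mul_comm g' g]
    exact this
  have hs1 : (t : ℤ) ^ m ∣ s - 1 := by
    have := sub_dvd_pow_sub_pow v 1 g'
    rw [one_pow] at this
    exact hv1.trans this
  have hxdy : (t : ℤ) ^ x ∣ (t : ℤ) ^ y := pow_dvd_pow _ hxy
  -- pass to the ring ZMod (t^x)
  set n : ℕ := t ^ x with hn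
  have key : ∀ A : ℤ, (t : ℤ) ^ x ∣ A ↔ ((A : ℤ) : ZMod n) = 0 := by
    intro A
    rw [ZMod.intCast_zmod_eq_zero_iff_dvd]
    rw [hn]; push_cast; rfl
  have key2 : ∀ A B : ℤ, (t : ℤ) ^ x ∣ A - B → (A : ZMod n) = (B : ZMod n) := by
    intro A B h
    have := (key _).mp h
    push_cast at this
    exact sub_eq_zero.mp this
  have Eq1 : (q : ZMod n) * (qi : ZMod n) = 1 := by
    have := key2 (q * qi) 1 (hxdy.trans hqi)
    push_cast at this
    exact this
  have Ec1 : (c : ZMod n) * (ci : ZMod n) = 1 := by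
    have := key2 (c * ci) 1 (hxdy.trans hci)
    push_cast at this
    exact this
  have Ev : (v : ZMod n) = (p : ZMod n) * (qi : ZMod n) := by rw [hv]; push_cast; rfl
  have Ew : (w0 : ZMod n) = (a : ZMod n) * (ci : ZMod n) := by rw [hw0]; push_cast; rfl
  have Ep : (p : ZMod n) = (v : ZMod n) * (q : ZMod n) := by
    rw [Ev]; linear_combination (-(p : ZMod n)) * Eq1
  have Ea : (a : ZMod n) = (w0 : ZMod n) * (c : ZMod n) := by
    rw [Ew]; linear_combination (-(a : ZMod n)) * Ec1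
  have Es : (s : ZMod n) ^ g = (v : ZMod n) := by
    have := key2 (s ^ g) v (hxdy.trans hsg)
    push_cast at this
    exact this
  have E3 : (a : ZMod n) ^ g * (q : ZMod n) ^ z = (c : ZMod n) ^ g * (p : ZMod n) ^ z := by
    have := key2 _ _ h3
    push_cast at this
    exact this
  have Ewg : (w0 : ZMod n) ^ g = (v : ZMod n) ^ z := by
    rw [Ew, Ev, mul_pow, mul_pow]
    have e1 : ((q : ZMod n) * (qi : ZMod n)) ^ z = 1 := by rw [Eq1, one_pow]
    have e2 : ((c : ZMod n) * (ci : ZMod n)) ^ g = 1 := by rw [Ec1, one_pow]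
    rw [mul_pow] at e1 e2
    calc (a : ZMod n) ^ g * (ci : ZMod n) ^ g
        = ((a : ZMod n) ^ g * (q : ZMod n) ^ z) * ((ci : ZMod n) ^ g * (qi : ZMod n) ^ z) := by
          linear_combination (-(a : ZMod n) ^ g * (ci : ZMod n) ^ g) * e1
      _ = ((c : ZMod n) ^ g * (p : ZMod n) ^ z) * ((ci : ZMod n) ^ g * (qi : ZMod n) ^ z) := by
          rw [E3]
      _ = (p : ZMod n) ^ z * (qi : ZMod n) ^ z := by
          linear_combination ((p : ZMod n) ^ z * (qi : ZMod n) ^ z) * e2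
  have Ewz : (w0 : ZMod n) = (s : ZMod n) ^ z := by
    have h4 := key2 (w0 ^ (g * g')) w0 (hxdy.trans (hg' w0 hw1))
    push_cast at h4
    rw [← h4, pow_mul, Ewg, hs]
    push_cast
    rw [← pow_mul, ← pow_mul, mul_comm]
  -- the sum
  rw [key]
  have hsum : ((∑ w : Fin M × Fin (N + 1),
        b w * (Nat.choose (g * (w.2 : ℕ) + z * (w.1 : ℕ)) i : ℤ) *
          (p ^ (w.2 : ℕ) * q ^ (N - (w.2 : ℕ)) * (a ^ (w.1 : ℕ) * c ^ (M - 1 - (w.1 : ℕ)))) : ℤ) : ZMod n)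
      = ((q ^ N * c ^ (M - 1) * ∑ w : Fin M × Fin (N + 1),
        b w * (Nat.choose (g * (w.2 : ℕ) + z * (w.1 : ℕ)) i : ℤ) *
          s ^ (g * (w.2 : ℕ) + z * (w.1 : ℕ)) : ℤ) : ZMod n) := by
    push_cast
    rw [Finset.mul_sum]
    apply Finset.sum_congr rfl
    intro w _
    have hw2 : (w.2 : ℕ) ≤ N := Nat.lt_succ_iff.mp w.2.2
    have hw1' : (w.1 : ℕ) ≤ M - 1 := by have := w.1.2; omega
    have f1 : (q : ZMod n) ^ N = (q : ZMod n) ^ (w.2 : ℕ) * (q : ZMod n) ^ (N - (w.2 : ℕ)) := by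
      rw [← pow_add]; congr 1; omega
    have f2 : (c : ZMod n) ^ (M - 1) = (c : ZMod n) ^ (w.1 : ℕ) * (c : ZMod n) ^ (M - 1 - (w.1 : ℕ)) := by
      rw [← pow_add]; congr 1; omega
    have f3 : (s : ZMod n) ^ (g * (w.2 : ℕ) + z * (w.1 : ℕ)) =
        (v : ZMod n) ^ (w.2 : ℕ) * (w0 : ZMod n) ^ (w.1 : ℕ) := by
      rw [pow_add, pow_mul, pow_mul, Es, ← Ewz]
    rw [f1, f2, f3, Ep, Ea, mul_pow, mul_pow]
    ring
  rw [hsum, ← key]
  apply Dvd.dvd.mul_left
  have he := euler_dvd b (fun w : Fin M × Fin (N + 1) => g * (w.2 : ℕ) + z * (w.1 : ℕ)) K i s hsys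
  refine (pow_dvd_pow _ hx).trans ?_
  rw [pow_mul]
  exact (pow_dvd_pow_of_dvd hs1 (K - i)).trans he

end H85STAR
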