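import Pool.Agent.H85.STAR.Sieg
import Pool.Agent.H85.STAR.Div

namespace H85STAR

open Finset

/-- The zero estimate. -/
def ZeroStmt : Prop := ∀ (g z M N K I : ℕ) (b : Fin M × Fin (N + 1) → ℤ) (τ u : ℚ),
  0 < g → Nat.Coprime z g → M ≤ g → b ≠ 0 → τ ≠ 0 → τ ≠ 1 → u ≠ 0 →
  (∀ i < K, ∑ w : Fin M × Fin (N + 1),
    b w * (Nat.choose (g * (w.2 : ℕ) + z * (w.1 : ℕ)) i : ℤ) = 0) →
  (∀ i < I, ∑ w : Fin M × Fin (N + 1),
    (b w : ℚ) * (Nat.choose (g * (w.2 : ℕ) + z * (w.1 : ℕ)) i : ℚ) * τ ^ (w.2 : ℕ) *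
      u ^ (w.1 : ℕ) = 0) →
  K + I < M * N + 2 * M

/-- The Thue-Siegel step with one approximation. -/
def CoreStmt : Prop := ∀ (T : Finset ℕ) (g z M N K I p q : ℕ) (a c : ℤ) (m x : ℕ → ℕ),
  (∀ t ∈ T, t.Prime) → 0 < g → z ≤ g → Nat.Coprime z g → 1 ≤ M → M ≤ g →
  4 * K ≤ 3 * (M * N) → M * N + 2 * M ≤ K + I → I ≤ K →
  0 < p → 0 < q → p ≠ q → a ≠ 0 → c ≠ 0 →
  (∀ t ∈ T, ¬ t ∣ g ∧ ¬ t ∣ q ∧ ¬ (t : ℤ) ∣ c ∧ 1 ≤ m t ∧ ((t : ℤ) ^ m t) ∣ (p : ℤ) - q ∧
     (t : ℤ) ∣ a - c ∧ ((t : ℤ) ^ x t) ∣ a ^ g * (q : ℤ) ^ z - c ^ g * (p : ℤ) ^ z ∧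
     x t ≤ m t * (K - I)) →
  (∏ t ∈ T, (t : ℝ) ^ x t) ≤
    ((M * (N + 1) : ℝ) * ((g : ℝ) ^ K * 3 ^ (N + M))) ^ 4 * (max p q : ℝ) ^ N *
      (max |(a : ℝ)| |(c : ℝ)|) ^ M

lemma core (hZ : ZeroStmt) : CoreStmt := by
  intro T g z M N K I p q a c m x hT hg hz hzg hM hMg hK hKI hIK hp hq hpq ha hc hall
  have hK0 : 0 < K := by
    rcases Nat.eq_zero_or_pos K with h | h
    · exfalso
      have hI : I = 0 := by omega
      have : M * N + 2 * M ≤ 0 := by omega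
      omega
    · exact h
  obtain ⟨b, hb0, hsys, hbound⟩ := siegel_step g z M N K hg hz hM hK0 hK
  set ξ : ℕ → ℤ := fun i => ∑ w : Fin M × Fin (N + 1),
        b w * (Nat.choose (g * (w.2 : ℕ) + z * (w.1 : ℕ)) i : ℤ) *
          ((p : ℤ) ^ (w.2 : ℕ) * (q : ℤ) ^ (N - (w.2 : ℕ)) *
            (a ^ (w.1 : ℕ) * c ^ (M - 1 - (w.1 : ℕ)))) with hξ
  have hqQ : (q : ℚ) ≠ 0 := by exact_mod_cast hq.ne'
  have hcQ : (c : ℚ) ≠ 0 := by exact_mod_cast hc
  -- some ξ i is nonzero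
  obtain ⟨i, hi, hne⟩ : ∃ i < I, ξ i ≠ 0 := by
    by_contra hcon
    push Not at hcon
    have := hZ g z M N K I b ((p : ℚ) / q) ((a : ℚ) / c) hg hzg hMg hb0
      (div_ne_zero (by exact_mod_cast hp.ne') hqQ)
      (by
        intro h
        rw [div_eq_one_iff_eq hqQ] at h
        exact hpq (by exact_mod_cast h))
      (div_ne_zero (by exact_mod_cast ha) hcQ) hsys
      (by
        intro i hi
        have h0 := hcon i hi
        have h1 : ((ξ i : ℤ) : ℚ) = 0 := by rw [h0]; norm_num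
        have h2 : ((ξ i : ℤ) : ℚ) = (q : ℚ) ^ N * (c : ℚ) ^ (M - 1) *
          ∑ w : Fin M × Fin (N + 1),
            (b w : ℚ) * (Nat.choose (g * (w.2 : ℕ) + z * (w.1 : ℕ)) i : ℚ) *
              ((p : ℚ) / q) ^ (w.2 : ℕ) * ((a : ℚ) / c) ^ (w.1 : ℕ) := by
          simp only [hξ]
          push_cast
          rw [Finset.mul_sum]
          apply Finset.sum_congr rfl
          intro w _
          have hw2 : (w.2 : ℕ) ≤ N := Nat.lt_succ_iff.mp w.2.2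
          have hw1' : (w.1 : ℕ) ≤ M - 1 := by have := w.1.2; omega
          have f1 : (q : ℚ) ^ N = (q : ℚ) ^ (w.2 : ℕ) * (q : ℚ) ^ (N - (w.2 : ℕ)) := by
            rw [← pow_add]; congr 1; omega
          have f2 : (c : ℚ) ^ (M - 1) = (c : ℚ) ^ (w.1 : ℕ) * (c : ℚ) ^ (M - 1 - (w.1 : ℕ)) := by
            rw [← pow_add]; congr 1; omega
          rw [f1, f2, div_pow, div_pow]
          have g1 : (q : ℚ) ^ (w.2 : ℕ) ≠ 0 := pow_ne_zero _ hqQ
          have g2 : (c : ℚ) ^ (w.1 : ℕ) ≠ 0 := pow_ne_zero _ hcQ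
          field_simp
        rw [h2] at h1
        exact (mul_eq_zero.mp h1).resolve_left
          (mul_ne_zero (pow_ne_zero _ hqQ) (pow_ne_zero _ hcQ)))
    omega
  -- divisibility
  have hdvd : (∏ t ∈ T, t ^ x t) ∣ (ξ i).natAbs := by
    have h1 : ∀ t ∈ T, t ^ x t ∣ (ξ i).natAbs := by
      intro t ht
      obtain ⟨k1, k2, k3, k4, k5, k6, k7, k8⟩ := hall t ht
      have hq' : ¬ (t : ℤ) ∣ (q : ℤ) := by
        intro h; exact k2 (by exact_mod_cast h)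
      have := divis t g z M N K i (x t) (m t) b (p : ℤ) (q : ℤ) a c (hT t ht) k1 hq' k3 k4 k5 k6 k7
        hsys (k8.trans (Nat.mul_le_mul_left _ (by omega)))
      rw [← Int.natCast_dvd]
      push_cast
      exact this
    refine Finset.prod_dvd_of_isRelPrime ?_ h1
    intro t ht s hs hts
    rw [Function.onFun, ← Nat.coprime_iff_isRelPrime]
    exact Nat.Coprime.pow _ _ ((Nat.coprime_primes (hT t ht) (hT s hs)).mpr hts)
  have hle : (∏ t ∈ T, t ^ x t) ≤ (ξ i).natAbs :=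
    Nat.le_of_dvd (Int.natAbs_pos.mpr hne) hdvd
  have hleR : (∏ t ∈ T, (t : ℝ) ^ x t) ≤ |((ξ i : ℤ) : ℝ)| := by
    have h1 : ((∏ t ∈ T, t ^ x t : ℕ) : ℝ) ≤ (((ξ i).natAbs : ℕ) : ℝ) := by exact_mod_cast hle
    rw [Nat.cast_natAbs] at h1
    push_cast at h1
    exact h1
  refine hleR.trans ?_
  set C : ℝ := (g : ℝ) ^ K * 3 ^ (N + M) with hC
  set D : ℝ := (M * (N + 1) : ℝ) * C with hD
  have hg1 : (1 : ℝ) ≤ g := by exact_mod_cast hg
  have hC0 : 0 < C := by positivity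
  have hD0 : 0 ≤ D := by positivity
  set P : ℝ := max (p : ℝ) (q : ℝ) with hP
  set A : ℝ := max |(a : ℝ)| |(c : ℝ)| with hA
  have hP1 : 1 ≤ P := by
    apply le_max_of_le_left; exact_mod_cast hp
  have hA1 : 1 ≤ A := by
    apply le_max_of_le_left
    have : (1 : ℤ) ≤ |a| := Int.one_le_abs ha
    exact_mod_cast this
  have hterm : ∀ w : Fin M × Fin (N + 1), |(((b w * (Nat.choose (g * (w.2 : ℕ) + z * (w.1 : ℕ)) i : ℤ) *
          ((p : ℤ) ^ (w.2 : ℕ) * (q : ℤ) ^ (N - (w.2 : ℕ)) *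
            (a ^ (w.1 : ℕ) * c ^ (M - 1 - (w.1 : ℕ))))) : ℤ) : ℝ)| ≤ D ^ 3 * C * (P ^ N * A ^ M) := by
    intro w
    have hw2 : (w.2 : ℕ) ≤ N := Nat.lt_succ_iff.mp w.2.2
    have hw1' : (w.1 : ℕ) ≤ M - 1 := by have := w.1.2; omega
    push_cast
    rw [abs_mul, abs_mul, abs_mul, abs_mul, abs_mul, abs_pow, abs_pow, abs_pow, abs_pow,
      Nat.abs_cast, Nat.abs_cast, Nat.abs_cast]
    have hb1 : |(b w : ℝ)| ≤ D ^ 3 := by
      have := hbound w
      push_cast at this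
      exact this
    have hb2 : (Nat.choose (g * (w.2 : ℕ) + z * (w.1 : ℕ)) i : ℝ) ≤ C := by
      apply choose_bound g _ i (N + M) K hg _ (by omega)
      have h2 : (w.1 : ℕ) ≤ M := w.1.2.le
      calc g * (w.2 : ℕ) + z * (w.1 : ℕ) ≤ g * N + g * M := by
            apply Nat.add_le_add
            · exact Nat.mul_le_mul_left _ hw2
            · exact Nat.mul_le_mul hz h2
        _ = g * (N + M) := by ring
    have hb3 : (p : ℝ) ^ (w.2 : ℕ) * (q : ℝ) ^ (N - (w.2 : ℕ)) ≤ P ^ N := by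
      calc (p : ℝ) ^ (w.2 : ℕ) * (q : ℝ) ^ (N - (w.2 : ℕ))
          ≤ P ^ (w.2 : ℕ) * P ^ (N - (w.2 : ℕ)) := by
            apply mul_le_mul
            · exact pow_le_pow_left₀ (by positivity) (le_max_left _ _) _
            · exact pow_le_pow_left₀ (by positivity) (le_max_right _ _) _
            · positivity
            · positivity
        _ = P ^ N := by rw [← pow_add]; congr 1; omega
    have hb4 : |(a : ℝ)| ^ (w.1 : ℕ) * |(c : ℝ)| ^ (M - 1 - (w.1 : ℕ)) ≤ A ^ M := by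
      calc |(a : ℝ)| ^ (w.1 : ℕ) * |(c : ℝ)| ^ (M - 1 - (w.1 : ℕ))
          ≤ A ^ (w.1 : ℕ) * A ^ (M - 1 - (w.1 : ℕ)) := by
            apply mul_le_mul
            · exact pow_le_pow_left₀ (by positivity) (le_max_left _ _) _
            · exact pow_le_pow_left₀ (by positivity) (le_max_right _ _) _
            · positivity
            · positivity
        _ = A ^ (M - 1) := by rw [← pow_add]; congr 1; omega
        _ ≤ A ^ M := pow_le_pow_right₀ hA1 (by omega)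
    apply mul_le_mul
    · exact mul_le_mul hb1 hb2 (by positivity) (by positivity)
    · exact mul_le_mul hb3 hb4 (by positivity) (by positivity)
    · positivity
    · positivity
  have hsum : |((ξ i : ℤ) : ℝ)| ≤ (M * (N + 1) : ℝ) * (D ^ 3 * C * (P ^ N * A ^ M)) := by
    simp only [hξ]
    rw [Int.cast_sum]
    refine (Finset.abs_sum_le_sum_abs _ _).trans ?_
    refine (Finset.sum_le_sum (fun w _ => hterm w)).trans ?_
    rw [Finset.sum_const, Finset.card_univ, nsmul_eq_mul]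
    apply mul_le_mul_of_nonneg_right _ (by positivity)
    simp
  refine hsum.trans (le_of_eq ?_)
  rw [hD]
  ring

end H85STAR
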