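import Pool.Agent.H98.STAR.CoreB

set_option autoImplicit false

namespace H85STAR

open Finset

lemma term_expandR (e i E : ℕ) (s : ℝ) (hE : e ≤ E) :
    (Nat.choose e i : ℝ) * s ^ e =
      s ^ i * ∑ j ∈ Finset.range (E + 1),
        (Nat.choose (i + j) i : ℝ) * (s - 1) ^ j * (Nat.choose e (i + j) : ℝ) := by
  rcases le_or_gt i e with h | h
  · have h1 : s ^ e = s ^ i * s ^ (e - i) := by rw [← pow_add]; congr 1; omega
    have h2 : s ^ (e - i) = ∑ j ∈ Finset.range (e - i + 1), (s - 1) ^ j * ((e - i).choose j : ℝ) := by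
      have := add_pow (s - 1) 1 (e - i)
      rw [sub_add_cancel] at this
      rw [this]
      apply Finset.sum_congr rfl
      intro j _
      ring
    have h3 : ∑ j ∈ Finset.range (E + 1),
        (Nat.choose (i + j) i : ℝ) * (s - 1) ^ j * (Nat.choose e (i + j) : ℝ) =
        ∑ j ∈ Finset.range (e - i + 1),
        (Nat.choose (i + j) i : ℝ) * (s - 1) ^ j * (Nat.choose e (i + j) : ℝ) := by
      symm
      apply Finset.sum_subset
      · intro j hj
        rw [Finset.mem_range] at hj ⊢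
        omega
      · intro j _ hj
        rw [Finset.mem_range] at hj
        rw [Nat.choose_eq_zero_of_lt (show e < i + j by omega)]
        simp
    rw [h1, h2, h3, Finset.mul_sum, Finset.mul_sum, Finset.mul_sum]
    apply Finset.sum_congr rfl
    intro j hj
    rw [Finset.mem_range] at hj
    have h4 : e.choose (i + j) * (i + j).choose i = e.choose i * (e - i).choose ((i + j) - i) :=
      Nat.choose_mul (by omega)
    rw [Nat.add_sub_cancel_left] at h4
    have h5 : (e.choose (i + j) : ℝ) * ((i + j).choose i : ℝ) = (e.choose i : ℝ) * ((e - i).choose j : ℝ) := by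
      exact_mod_cast h4
    linear_combination (-(s ^ i) * (s - 1) ^ j) * h5
  · rw [Nat.choose_eq_zero_of_lt h]
    have : ∑ j ∈ Finset.range (E + 1),
        (Nat.choose (i + j) i : ℝ) * (s - 1) ^ j * (Nat.choose e (i + j) : ℝ) = 0 := by
      apply Finset.sum_eq_zero
      intro j _
      rw [Nat.choose_eq_zero_of_lt (show e < i + j by omega)]
      simp
    rw [this]
    simp

/-- tail of the exponential series -/
lemma exp_tail (y : ℝ) (hy : 0 ≤ y) (D n : ℕ) :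
    ∑ j ∈ Finset.range n, y ^ (D + j) / ((D + j).factorial : ℝ) ≤
      y ^ D / (D.factorial : ℝ) * Real.exp y := by
  calc ∑ j ∈ Finset.range n, y ^ (D + j) / ((D + j).factorial : ℝ)
      ≤ ∑ j ∈ Finset.range n, y ^ D / (D.factorial : ℝ) * (y ^ j / (j.factorial : ℝ)) := by
        apply Finset.sum_le_sum
        intro j _
        have h1 : D.factorial * j.factorial ≤ (D + j).factorial :=
          Nat.le_of_dvd (Nat.factorial_pos _) (Nat.factorial_mul_factorial_dvd_factorial_add D j)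
        have h2 : ((D.factorial : ℝ) * (j.factorial : ℝ)) ≤ ((D + j).factorial : ℝ) := by
          exact_mod_cast h1
        rw [div_mul_div_comm, ← pow_add]
        apply div_le_div_of_nonneg_left (by positivity) (by positivity) h2
    _ = y ^ D / (D.factorial : ℝ) * ∑ j ∈ Finset.range n, (y ^ j / (j.factorial : ℝ)) := by
        rw [Finset.mul_sum]
    _ ≤ y ^ D / (D.factorial : ℝ) * Real.exp y := by
        apply mul_le_mul_of_nonneg_left (Real.sum_le_exp_of_nonneg hy n) (by positivity)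

/-- `C(e, i) * tail` -/
lemma tail_bound (e i D E : ℕ) (s Y : ℝ) (hY : (e : ℝ) * |s - 1| ≤ Y) (_hDi : D ≤ E + 1) :
    |∑ j ∈ Finset.Ico D (E + 1),
      (Nat.choose (i + j) i : ℝ) * (s - 1) ^ j * (Nat.choose e (i + j) : ℝ)| ≤
      (Nat.choose e i : ℝ) * (Y ^ D / (D.factorial : ℝ) * Real.exp Y) := by
  have hY0 : 0 ≤ Y := le_trans (by positivity) hY
  have hterm : ∀ j, |(Nat.choose (i + j) i : ℝ) * (s - 1) ^ j * (Nat.choose e (i + j) : ℝ)| ≤
      (Nat.choose e i : ℝ) * (Y ^ j / (j.factorial : ℝ)) := by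
    intro j
    rw [abs_mul, abs_mul, abs_pow, Nat.abs_cast, Nat.abs_cast]
    have h4 : e.choose (i + j) * (i + j).choose i = e.choose i * (e - i).choose ((i + j) - i) :=
      Nat.choose_mul (by omega)
    rw [Nat.add_sub_cancel_left] at h4
    have h5 : (e.choose (i + j) : ℝ) * ((i + j).choose i : ℝ) =
        (e.choose i : ℝ) * ((e - i).choose j : ℝ) := by
      exact_mod_cast h4
    have h6 : (((e - i).choose j : ℕ) : ℝ) ≤ (e : ℝ) ^ j / (j.factorial : ℝ) := by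
      have h7 : (((e - i).choose j : ℕ) : ℝ) ≤ (((e - i : ℕ) : ℝ)) ^ j / (j.factorial : ℝ) :=
        Nat.choose_le_pow_div j (e - i)
      refine h7.trans ?_
      apply div_le_div_of_nonneg_right _ (by positivity)
      apply pow_le_pow_left₀ (Nat.cast_nonneg _)
      exact_mod_cast Nat.sub_le e i
    calc ((i + j).choose i : ℝ) * |s - 1| ^ j * (e.choose (i + j) : ℝ)
        = (e.choose i : ℝ) * ((((e - i).choose j : ℕ) : ℝ) * |s - 1| ^ j) := by
          linear_combination |s - 1| ^ j * h5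
      _ ≤ (e.choose i : ℝ) * ((e : ℝ) ^ j / (j.factorial : ℝ) * |s - 1| ^ j) := by
          apply mul_le_mul_of_nonneg_left _ (by positivity)
          apply mul_le_mul_of_nonneg_right h6 (by positivity)
      _ = (e.choose i : ℝ) * (((e : ℝ) * |s - 1|) ^ j / (j.factorial : ℝ)) := by
          rw [mul_pow]; ring
      _ ≤ (e.choose i : ℝ) * (Y ^ j / (j.factorial : ℝ)) := by
          apply mul_le_mul_of_nonneg_left _ (by positivity)
          apply div_le_div_of_nonneg_right _ (by positivity)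
          exact pow_le_pow_left₀ (by positivity) hY j
  refine (Finset.abs_sum_le_sum_abs _ _).trans ?_
  refine (Finset.sum_le_sum (fun j _ => hterm j)).trans ?_
  rw [← Finset.mul_sum]
  apply mul_le_mul_of_nonneg_left _ (by positivity)
  rw [Finset.sum_Ico_eq_sum_range]
  exact exp_tail Y hY0 D _

lemma pow_div_fact_le (y r : ℝ) (hy : 0 ≤ y) (m : ℕ) (hm : 0 < m) (h : 3 * y ≤ r * m) :
    y ^ m / (m.factorial : ℝ) ≤ r ^ m := by
  have hmR : (0 : ℝ) < m := by exact_mod_cast hm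
  have h1 : (m : ℝ) ^ m / (m.factorial : ℝ) ≤ 3 ^ m := by
    refine (Real.pow_div_factorial_le_exp (m : ℝ) hmR.le m).trans ?_
    have h2 : Real.exp (m : ℝ) = (Real.exp 1) ^ m := by
      rw [← Real.exp_nat_mul, mul_one]
    rw [h2]
    apply pow_le_pow_left₀ (Real.exp_pos 1).le
    have := Real.exp_one_lt_d9
    linarith
  have hf : (0 : ℝ) < (m.factorial : ℝ) := by exact_mod_cast Nat.factorial_pos m
  have hr : 0 ≤ r := by
    by_contra hneg
    push Not at hneg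
    have : r * m < 0 := mul_neg_of_neg_of_pos hneg hmR
    linarith
  have h3 : (3 * y) ^ m ≤ (r * m) ^ m := pow_le_pow_left₀ (by positivity) h m
  rw [mul_pow, mul_pow] at h3
  have h4 : (m : ℝ) ^ m ≤ 3 ^ m * (m.factorial : ℝ) := by
    rwa [div_le_iff₀ hf] at h1
  rw [div_le_iff₀ hf]
  have h5 : (3 : ℝ) ^ m * y ^ m ≤ 3 ^ m * (r ^ m * (m.factorial : ℝ)) := by
    calc (3 : ℝ) ^ m * y ^ m ≤ r ^ m * (m : ℝ) ^ m := h3
      _ ≤ r ^ m * (3 ^ m * (m.factorial : ℝ)) := mul_le_mul_of_nonneg_left h4 (by positivity)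
      _ = 3 ^ m * (r ^ m * (m.factorial : ℝ)) := by ring
  exact le_of_mul_le_mul_left h5 (by positivity)

lemma abs_exp_sub_one_le' (x : ℝ) (hx : |x| ≤ 1) : |Real.exp x - 1| ≤ 3 * |x| := by
  have h1 := Real.abs_exp_sub_one_le hx
  have : 0 ≤ |x| := abs_nonneg x
  linarith

/-- The Thue-Siegel step with one approximation, real place. -/
theorem coreR (g z M N K I p q a c : ℕ) (Bd ρ δ : ℝ) (hBd1 : 1 ≤ Bd)
    (hBd : ∀ n ≤ N, ∀ k < M, ∀ i < K, (Nat.choose (g * n + z * k) i : ℝ) ≤ Bd)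
    (hg : 0 < g) (hz : z ≤ g) (hzg : Nat.Coprime z g) (hM : 1 ≤ M) (hMg : M ≤ g)
    (hK : 4 * K ≤ 3 * (M * N)) (hKI : M * N + 2 * M ≤ K + I) (hIK : I ≤ K)
    (hNM : N + M ≤ K - I)
    (hp : 0 < p) (hq : 0 < q) (hpq : p ≠ q) (ha : 0 < a) (hc : 0 < c) (hρ : ρ ≤ 1 / 9)
    (hlog : |Real.log ((p : ℝ) / q)| ≤ ρ)
    (hδ : |Real.log ((a : ℝ) / c) - (z : ℝ) / g * Real.log ((p : ℝ) / q)| ≤ δ)
    (hMδ : (M : ℝ) * δ ≤ 1) :
    1 ≤ ((M * (N + 1) : ℝ) * Bd) ^ 4 * (max p q : ℝ) ^ N * (max a c : ℝ) ^ M * 9 ^ (N + M) *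
      ((9 * ρ) ^ (K - I) + 3 * M * δ) := by
  have hZ : ZeroStmt := zero_est
  have hK0 : 0 < K := by
    rcases Nat.eq_zero_or_pos K with h | h
    · exfalso
      omega
    · exact h
  obtain ⟨b, hb0, hsys, hbound⟩ := Pool.STAR98.siegel_stepB g z M N K Bd hBd1 hBd hM hK0 hK
  set ξ : ℕ → ℤ := fun i => ∑ w : Fin M × Fin (N + 1),
        b w * (Nat.choose (g * (w.2 : ℕ) + z * (w.1 : ℕ)) i : ℤ) *
          ((p : ℤ) ^ (w.2 : ℕ) * (q : ℤ) ^ (N - (w.2 : ℕ)) *
            ((a : ℤ) ^ (w.1 : ℕ) * (c : ℤ) ^ (M - 1 - (w.1 : ℕ)))) with hξ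
  have hqQ : (q : ℚ) ≠ 0 := by exact_mod_cast hq.ne'
  have hcQ : (c : ℚ) ≠ 0 := by exact_mod_cast hc.ne'
  obtain ⟨i, hi, hne⟩ : ∃ i < I, ξ i ≠ 0 := by
    by_contra hcon
    push Not at hcon
    have := hZ g z M N K I b ((p : ℚ) / q) ((a : ℚ) / c) hg hzg hMg hb0
      (div_ne_zero (by exact_mod_cast hp.ne') hqQ)
      (by
        intro h
        rw [div_eq_one_iff_eq hqQ] at h
        exact hpq (by exact_mod_cast h))
      (div_ne_zero (by exact_mod_cast ha.ne') hcQ) hsys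
      (by
        intro i hi
        have h0 := hcon i hi
        have h1 : ((ξ i : ℤ) : ℚ) = 0 := by rw [h0]; norm_num
        have h2 : ((ξ i : ℤ) : ℚ) = (q : ℚ) ^ N * (c : ℚ) ^ (M - 1) *
          ∑ w : Fin M × Fin (N + 1),
            (b w : ℚ) * (Nat.choose (g * (w.2 : ℕ) + z * (w.1 : ℕ)) i : ℚ) *
              ((p : ℚ) / q) ^ (w.2 : ℕ) * ((a : ℚ) / c) ^ (w.1 : ℕ) := by
          simp only [hξ]
          push_cast
          rw [Finset.mul_sum]
          apply Finset.sum_congr rfl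
          intro w _
          have hw2 : (w.2 : ℕ) ≤ N := Nat.lt_succ_iff.mp w.2.2
          have hw1' : (w.1 : ℕ) ≤ M - 1 := by have := w.1.2; omega
          have f1 : (q : ℚ) ^ N = (q : ℚ) ^ (w.2 : ℕ) * (q : ℚ) ^ (N - (w.2 : ℕ)) := by
            rw [← pow_add]; congr 1; omega
          have f2 : (c : ℚ) ^ (M - 1) = (c : ℚ) ^ (w.1 : ℕ) * (c : ℚ) ^ (M - 1 - (w.1 : ℕ)) := by
            rw [← pow_add]; congr 1; omega
          rw [f1, f2, div_pow, div_pow]
          have g1 : (q : ℚ) ^ (w.2 : ℕ) ≠ 0 := pow_ne_zero _ hqQ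
          have g2 : (c : ℚ) ^ (w.1 : ℕ) ≠ 0 := pow_ne_zero _ hcQ
          field_simp
        rw [h2] at h1
        exact (mul_eq_zero.mp h1).resolve_left
          (mul_ne_zero (pow_ne_zero _ hqQ) (pow_ne_zero _ hcQ)))
    omega
  -- reals
  have hpR : (0 : ℝ) < p := by exact_mod_cast hp
  have hqR : (0 : ℝ) < q := by exact_mod_cast hq
  have haR : (0 : ℝ) < a := by exact_mod_cast ha
  have hcR : (0 : ℝ) < c := by exact_mod_cast hc
  have hgR : (0 : ℝ) < g := by exact_mod_cast hg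
  have hg1 : (1 : ℝ) ≤ g := by exact_mod_cast hg
  have hMR : (1 : ℝ) ≤ M := by exact_mod_cast hM
  have hNR : (0 : ℝ) ≤ N := Nat.cast_nonneg _
  set lam : ℝ := Real.log ((p : ℝ) / q) with hlam
  set μ : ℝ := Real.log ((a : ℝ) / c) - (z : ℝ) / g * lam with hμ
  set s : ℝ := Real.exp (lam / g) with hs
  have hs0 : 0 < s := Real.exp_pos _
  have hρ0 : 0 ≤ ρ := (abs_nonneg _).trans hlog
  have hδ0 : 0 ≤ δ := (abs_nonneg _).trans hδ
  have hlg : |lam / g| ≤ ρ / g := by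
    rw [abs_div, abs_of_pos hgR]
    exact div_le_div_of_nonneg_right hlog hgR.le
  have hρg : ρ / g ≤ ρ := div_le_self hρ0 hg1
  have hs1 : |s - 1| ≤ 3 * ρ / g := by
    have h1 := abs_exp_sub_one_le' (lam / g) (hlg.trans (by linarith))
    rw [← hs] at h1
    calc |s - 1| ≤ 3 * |lam / g| := h1
      _ ≤ 3 * (ρ / g) := by linarith
      _ = 3 * ρ / g := by ring
  have hlamρ : lam ≤ ρ := (le_abs_self _).trans hlog
  -- the identity τ^n u^k = s^e exp(k μ)
  have hτu : ∀ k n : ℕ, ((p : ℝ) / q) ^ n * ((a : ℝ) / c) ^ k =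
      s ^ (g * n + z * k) * Real.exp (k * μ) := by
    intro k n
    have h1 : ((p : ℝ) / q) = Real.exp lam := by
      rw [hlam, Real.exp_log (div_pos hpR hqR)]
    have h2 : ((a : ℝ) / c) = Real.exp ((z : ℝ) / g * lam + μ) := by
      rw [hμ]
      have : (z : ℝ) / g * lam + (Real.log ((a : ℝ) / c) - (z : ℝ) / g * lam) =
        Real.log ((a : ℝ) / c) := by ring
      rw [this, Real.exp_log (div_pos haR hcR)]
    rw [h1, h2, hs, ← Real.exp_nat_mul, ← Real.exp_nat_mul, ← Real.exp_nat_mul, ← Real.exp_add,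
      ← Real.exp_add]
    congr 1
    push_cast
    field_simp
    ring
  set Xi : ℝ := ∑ w : Fin M × Fin (N + 1),
      (b w : ℝ) * (Nat.choose (g * (w.2 : ℕ) + z * (w.1 : ℕ)) i : ℝ) *
        (s ^ (g * (w.2 : ℕ) + z * (w.1 : ℕ)) * Real.exp ((w.1 : ℕ) * μ)) with hXi
  have hξR : ((ξ i : ℤ) : ℝ) = (q : ℝ) ^ N * (c : ℝ) ^ (M - 1) * Xi := by
    simp only [hξ, hXi]
    push_cast
    rw [Finset.mul_sum]
    apply Finset.sum_congr rfl
    intro w _
    have hw2 : (w.2 : ℕ) ≤ N := Nat.lt_succ_iff.mp w.2.2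
    have hw1' : (w.1 : ℕ) ≤ M - 1 := by have := w.1.2; omega
    have f1 : (q : ℝ) ^ N = (q : ℝ) ^ (w.2 : ℕ) * (q : ℝ) ^ (N - (w.2 : ℕ)) := by
      rw [← pow_add]; congr 1; omega
    have f2 : (c : ℝ) ^ (M - 1) = (c : ℝ) ^ (w.1 : ℕ) * (c : ℝ) ^ (M - 1 - (w.1 : ℕ)) := by
      rw [← pow_add]; congr 1; omega
    rw [← hτu, f1, f2, div_pow, div_pow]
    have g1 : (q : ℝ) ^ (w.2 : ℕ) ≠ 0 := pow_ne_zero _ hqR.ne'
    have g2 : (c : ℝ) ^ (w.1 : ℕ) ≠ 0 := pow_ne_zero _ hcR.ne'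
    field_simp
  set S1 : ℝ := ∑ w : Fin M × Fin (N + 1),
      (b w : ℝ) * ((Nat.choose (g * (w.2 : ℕ) + z * (w.1 : ℕ)) i : ℝ) *
        s ^ (g * (w.2 : ℕ) + z * (w.1 : ℕ))) with hS1
  set P : ℝ := max (p : ℝ) (q : ℝ) with hP
  set A : ℝ := max (a : ℝ) (c : ℝ) with hA
  have hP1 : 1 ≤ P := le_max_of_le_left (by exact_mod_cast hp)
  have hA1 : 1 ≤ A := le_max_of_le_left (by exact_mod_cast ha)
  have hqP : (q : ℝ) ≤ P := le_max_right _ _
  have hpP : (p : ℝ) ≤ P := le_max_left _ _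
  have hcA : (c : ℝ) ≤ A := le_max_right _ _
  set B : ℝ := ((M * (N + 1) : ℝ) * Bd) ^ 3 with hB
  have hB0 : 0 ≤ B := by positivity
  have hbB : ∀ w, |(b w : ℝ)| ≤ B := by
    intro w
    have := hbound w
    push_cast at this
    exact this
  have heM : ∀ w : Fin M × Fin (N + 1), ((g * (w.2 : ℕ) + z * (w.1 : ℕ) : ℕ) : ℝ) ≤ g * (N + M) := by
    intro w
    have hw2 : (w.2 : ℕ) ≤ N := Nat.lt_succ_iff.mp w.2.2
    have hw1 : (w.1 : ℕ) ≤ M := w.1.2.le
    have h1 : g * (w.2 : ℕ) + z * (w.1 : ℕ) ≤ g * (N + M) := by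
      calc g * (w.2 : ℕ) + z * (w.1 : ℕ) ≤ g * N + g * M :=
            Nat.add_le_add (Nat.mul_le_mul_left _ hw2) (Nat.mul_le_mul hz hw1)
        _ = g * (N + M) := by ring
    exact_mod_cast h1
  have hch : ∀ w : Fin M × Fin (N + 1),
      (Nat.choose (g * (w.2 : ℕ) + z * (w.1 : ℕ)) i : ℝ) ≤ Bd := by
    intro w
    exact hBd _ (Nat.lt_succ_iff.mp w.2.2) _ w.1.2 _ (by omega)
  have hcard : ((Finset.univ : Finset (Fin M × Fin (N + 1))).card : ℝ) = (M : ℝ) * (N + 1) := by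
    rw [Finset.card_univ]; simp
  -- e^x ≤ 3^n bounds
  have hexp3 : ∀ (y : ℝ) (n : ℕ), y ≤ n → Real.exp y ≤ 3 ^ n := by
    intro y n hy
    calc Real.exp y ≤ Real.exp (n : ℝ) := Real.exp_le_exp.mpr hy
      _ = (Real.exp 1) ^ n := by rw [← Real.exp_nat_mul, mul_one]
      _ ≤ 3 ^ n := by
        apply pow_le_pow_left₀ (Real.exp_pos 1).le
        have := Real.exp_one_lt_d9
        linarith
  have hspow : ∀ n : ℕ, s ^ n ≤ Real.exp (n * (ρ / g)) := by
    intro n
    rw [hs, ← Real.exp_nat_mul]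
    apply Real.exp_le_exp.mpr
    apply mul_le_mul_of_nonneg_left _ (Nat.cast_nonneg _)
    exact (le_abs_self _).trans hlg
  -- bound for S1
  have hS1b : |S1| ≤ (M * (N + 1) : ℝ) * (B * (Bd * ((9 * ρ) ^ (K - I) * 3 ^ (N + M)))) * 3 ^ N := by
    obtain ⟨E, hE⟩ : ∃ E, ∀ w : Fin M × Fin (N + 1), g * (w.2 : ℕ) + z * (w.1 : ℕ) ≤ E := by
      refine ⟨∑ w : Fin M × Fin (N + 1), (g * (w.2 : ℕ) + z * (w.1 : ℕ)), fun w => ?_⟩
      exact Finset.single_le_sum (f := fun w : Fin M × Fin (N + 1) =>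
        g * (w.2 : ℕ) + z * (w.1 : ℕ)) (fun _ _ => Nat.zero_le _) (Finset.mem_univ w)
    set E' : ℕ := max E K with hE'
    have hEE : E ≤ E' := le_max_left _ _
    have hKE : K ≤ E' := le_max_right _ _
    -- expand
    have h1 : S1 = s ^ i * ∑ w : Fin M × Fin (N + 1), (b w : ℝ) *
        ∑ j ∈ Finset.Ico (K - i) (E' + 1),
          (Nat.choose (i + j) i : ℝ) * (s - 1) ^ j *
            (Nat.choose (g * (w.2 : ℕ) + z * (w.1 : ℕ)) (i + j) : ℝ) := by
      have h2 : S1 = s ^ i * ∑ w : Fin M × Fin (N + 1), (b w : ℝ) *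
        ∑ j ∈ Finset.range (E' + 1),
          (Nat.choose (i + j) i : ℝ) * (s - 1) ^ j *
            (Nat.choose (g * (w.2 : ℕ) + z * (w.1 : ℕ)) (i + j) : ℝ) := by
        rw [hS1, Finset.mul_sum]
        apply Finset.sum_congr rfl
        intro w _
        rw [term_expandR _ i E' s ((hE w).trans hEE)]
        ring
      rw [h2]
      congr 1
      have h3 : ∀ w : Fin M × Fin (N + 1), (b w : ℝ) * ∑ j ∈ Finset.range (E' + 1),
          (Nat.choose (i + j) i : ℝ) * (s - 1) ^ j *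
            (Nat.choose (g * (w.2 : ℕ) + z * (w.1 : ℕ)) (i + j) : ℝ) =
          (b w : ℝ) * ∑ j ∈ Finset.range (K - i),
          (Nat.choose (i + j) i : ℝ) * (s - 1) ^ j *
            (Nat.choose (g * (w.2 : ℕ) + z * (w.1 : ℕ)) (i + j) : ℝ) +
          (b w : ℝ) * ∑ j ∈ Finset.Ico (K - i) (E' + 1),
          (Nat.choose (i + j) i : ℝ) * (s - 1) ^ j *
            (Nat.choose (g * (w.2 : ℕ) + z * (w.1 : ℕ)) (i + j) : ℝ) := by
        intro w
        rw [← mul_add, Finset.sum_range_add_sum_Ico _ (show K - i ≤ E' + 1 by omega)]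
      rw [Finset.sum_congr rfl (fun w _ => h3 w), Finset.sum_add_distrib]
      have h4 : ∑ w : Fin M × Fin (N + 1), (b w : ℝ) * ∑ j ∈ Finset.range (K - i),
          (Nat.choose (i + j) i : ℝ) * (s - 1) ^ j *
            (Nat.choose (g * (w.2 : ℕ) + z * (w.1 : ℕ)) (i + j) : ℝ) = 0 := by
        have h5 : ∑ w : Fin M × Fin (N + 1), (b w : ℝ) * ∑ j ∈ Finset.range (K - i),
          (Nat.choose (i + j) i : ℝ) * (s - 1) ^ j *
            (Nat.choose (g * (w.2 : ℕ) + z * (w.1 : ℕ)) (i + j) : ℝ) =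
            ∑ j ∈ Finset.range (K - i), (Nat.choose (i + j) i : ℝ) * (s - 1) ^ j *
              ∑ w : Fin M × Fin (N + 1), (b w : ℝ) *
              (Nat.choose (g * (w.2 : ℕ) + z * (w.1 : ℕ)) (i + j) : ℝ) := by
          simp only [Finset.mul_sum]
          rw [Finset.sum_comm]
          apply Finset.sum_congr rfl
          intro j _
          apply Finset.sum_congr rfl
          intro w _
          ring
        rw [h5]
        apply Finset.sum_eq_zero
        intro j hj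
        rw [Finset.mem_range] at hj
        have h6 := hsys (i + j) (by omega)
        have h7 : ((∑ w : Fin M × Fin (N + 1),
          b w * (Nat.choose (g * (w.2 : ℕ) + z * (w.1 : ℕ)) (i + j) : ℤ) : ℤ) : ℝ) = 0 := by
          rw [h6]; norm_num
        push_cast at h7
        rw [h7, mul_zero]
      rw [h4, zero_add]
    have hY : ∀ w : Fin M × Fin (N + 1),
        ((g * (w.2 : ℕ) + z * (w.1 : ℕ) : ℕ) : ℝ) * |s - 1| ≤ 3 * ρ * (N + M) := by
      intro w
      calc ((g * (w.2 : ℕ) + z * (w.1 : ℕ) : ℕ) : ℝ) * |s - 1|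
          ≤ (g * (N + M)) * (3 * ρ / g) :=
            mul_le_mul (heM w) hs1 (abs_nonneg _) (by positivity)
        _ = 3 * ρ * (N + M) := by field_simp
    have hKi : N + M ≤ K - i := by omega
    have hfac : (3 * ρ * (N + M)) ^ (K - i) / ((K - i).factorial : ℝ) ≤ (9 * ρ) ^ (K - i) := by
      apply pow_div_fact_le _ _ (by positivity) _ (by omega)
      have h8 : ((N : ℝ) + M) ≤ ((K - i : ℕ) : ℝ) := by exact_mod_cast hKi
      have : 0 ≤ 9 * ρ := by positivity
      calc 3 * (3 * ρ * (N + M)) = 9 * ρ * (N + M) := by ring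
        _ ≤ 9 * ρ * ((K - i : ℕ) : ℝ) := mul_le_mul_of_nonneg_left h8 this
    have hfac2 : (9 * ρ) ^ (K - i) ≤ (9 * ρ) ^ (K - I) :=
      pow_le_pow_of_le_one (by positivity) (by linarith) (by omega)
    have hexpY : Real.exp (3 * ρ * (N + M)) ≤ 3 ^ (N + M) := by
      apply hexp3
      push_cast
      have : 3 * ρ ≤ 1 := by linarith
      nlinarith
    have htail : ∀ w : Fin M × Fin (N + 1), |∑ j ∈ Finset.Ico (K - i) (E' + 1),
          (Nat.choose (i + j) i : ℝ) * (s - 1) ^ j *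
            (Nat.choose (g * (w.2 : ℕ) + z * (w.1 : ℕ)) (i + j) : ℝ)| ≤
          Bd * ((9 * ρ) ^ (K - I) * 3 ^ (N + M)) := by
      intro w
      refine (tail_bound (g * (w.2 : ℕ) + z * (w.1 : ℕ)) i (K - i) E' s _ (hY w) (by omega)).trans ?_
      apply mul_le_mul (hch w) _ (by positivity) (by positivity)
      exact mul_le_mul (hfac.trans hfac2) hexpY (by positivity) (by positivity)
    have hsi : s ^ i ≤ 3 ^ N := by
      refine (hspow i).trans ?_
      apply hexp3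
      have hiK : i ≤ K := by omega
      have hKMN : K ≤ M * N := by nlinarith
      have h9 : (i : ℝ) ≤ g * N := by
        have : i ≤ g * N := hiK.trans (hKMN.trans (Nat.mul_le_mul_right _ hMg))
        exact_mod_cast this
      calc (i : ℝ) * (ρ / g) ≤ (g * N) * (ρ / g) :=
            mul_le_mul_of_nonneg_right h9 (by positivity)
        _ = N * ρ := by field_simp
        _ ≤ N := by nlinarith
    rw [h1, abs_mul, abs_of_pos (pow_pos hs0 i), mul_comm]
    apply mul_le_mul _ hsi (by positivity) (by positivity)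
    refine (Finset.abs_sum_le_sum_abs _ _).trans ?_
    have h10 : ∀ w ∈ (Finset.univ : Finset (Fin M × Fin (N + 1))),
        |(b w : ℝ) * ∑ j ∈ Finset.Ico (K - i) (E' + 1),
          (Nat.choose (i + j) i : ℝ) * (s - 1) ^ j *
            (Nat.choose (g * (w.2 : ℕ) + z * (w.1 : ℕ)) (i + j) : ℝ)| ≤
        B * (Bd * ((9 * ρ) ^ (K - I) * 3 ^ (N + M))) := by
      intro w _
      rw [abs_mul]
      exact mul_le_mul (hbB w) (htail w) (abs_nonneg _) hB0
    refine (Finset.sum_le_sum h10).trans ?_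
    rw [Finset.sum_const, nsmul_eq_mul, hcard]
  -- bound for Xi - S1
  have hμδ : |μ| ≤ δ := hδ
  have hS2b : |Xi - S1| ≤ (M * (N + 1) : ℝ) * (B * (Bd * (3 ^ (N + M) * (3 * M * δ)))) := by
    have h1 : Xi - S1 = ∑ w : Fin M × Fin (N + 1),
        (b w : ℝ) * ((Nat.choose (g * (w.2 : ℕ) + z * (w.1 : ℕ)) i : ℝ) *
          (s ^ (g * (w.2 : ℕ) + z * (w.1 : ℕ)) * (Real.exp ((w.1 : ℕ) * μ) - 1))) := by
      rw [hXi, hS1, ← Finset.sum_sub_distrib]
      apply Finset.sum_congr rfl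
      intro w _
      ring
    rw [h1]
    refine (Finset.abs_sum_le_sum_abs _ _).trans ?_
    have h10 : ∀ w ∈ (Finset.univ : Finset (Fin M × Fin (N + 1))),
        |(b w : ℝ) * ((Nat.choose (g * (w.2 : ℕ) + z * (w.1 : ℕ)) i : ℝ) *
          (s ^ (g * (w.2 : ℕ) + z * (w.1 : ℕ)) * (Real.exp ((w.1 : ℕ) * μ) - 1)))| ≤
        B * (Bd * (3 ^ (N + M) * (3 * M * δ))) := by
      intro w _
      rw [abs_mul, abs_mul, abs_mul, Nat.abs_cast, abs_of_pos (pow_pos hs0 _)]
      have hw1 : ((w.1 : ℕ) : ℝ) ≤ M := by exact_mod_cast w.1.2.le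
      have hkμ : |((w.1 : ℕ) : ℝ) * μ| ≤ M * δ := by
        rw [abs_mul, Nat.abs_cast]
        exact mul_le_mul hw1 hμδ (abs_nonneg _) (by positivity)
      have h11 : |Real.exp ((w.1 : ℕ) * μ) - 1| ≤ 3 * M * δ := by
        refine (abs_exp_sub_one_le' _ (hkμ.trans hMδ)).trans ?_
        linarith
      have h12 : s ^ (g * (w.2 : ℕ) + z * (w.1 : ℕ)) ≤ 3 ^ (N + M) := by
        refine (hspow _).trans ?_
        apply hexp3
        calc ((g * (w.2 : ℕ) + z * (w.1 : ℕ) : ℕ) : ℝ) * (ρ / g) ≤ (g * (N + M)) * (ρ / g) :=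
              mul_le_mul_of_nonneg_right (heM w) (by positivity)
          _ = (N + M) * ρ := by field_simp
          _ ≤ ((N + M : ℕ) : ℝ) := by push_cast; nlinarith
      apply mul_le_mul (hbB w) _ (by positivity) hB0
      apply mul_le_mul (hch w) _ (by positivity) (by positivity)
      exact mul_le_mul h12 h11 (abs_nonneg _) (by positivity)
    refine (Finset.sum_le_sum h10).trans ?_
    rw [Finset.sum_const, nsmul_eq_mul, hcard]
  -- conclusion
  have hξ1 : (1 : ℝ) ≤ |((ξ i : ℤ) : ℝ)| := by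
    have h1 : (1 : ℤ) ≤ |ξ i| := Int.one_le_abs hne
    exact_mod_cast h1
  have hqc : (q : ℝ) ^ N * (c : ℝ) ^ (M - 1) ≤ P ^ N * A ^ M := by
    apply mul_le_mul
    · exact pow_le_pow_left₀ hqR.le hqP N
    · calc (c : ℝ) ^ (M - 1) ≤ A ^ (M - 1) := pow_le_pow_left₀ hcR.le hcA _
        _ ≤ A ^ M := pow_le_pow_right₀ hA1 (by omega)
    · positivity
    · positivity
  have hXib : |Xi| ≤ (M * (N + 1) : ℝ) * (B * (Bd * (9 ^ (N + M) * ((9 * ρ) ^ (K - I) + 3 * M * δ)))) := by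
    have h1 : |Xi| ≤ |S1| + |Xi - S1| := by
      calc |Xi| = |S1 + (Xi - S1)| := by congr 1; ring
        _ ≤ |S1| + |Xi - S1| := abs_add_le _ _
    refine h1.trans ((add_le_add hS1b hS2b).trans ?_)
    have h3N : (3 : ℝ) ^ (N + M) * 3 ^ N ≤ 9 ^ (N + M) := by
      calc (3 : ℝ) ^ (N + M) * 3 ^ N ≤ 3 ^ (N + M) * 3 ^ (N + M) :=
            mul_le_mul_of_nonneg_left (pow_le_pow_right₀ (by norm_num) (by omega)) (by positivity)
        _ = 9 ^ (N + M) := by rw [← mul_pow]; norm_num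
    have h3M : (3 : ℝ) ^ (N + M) ≤ 9 ^ (N + M) := pow_le_pow_left₀ (by norm_num) (by norm_num) _
    have hq0 : 0 ≤ (9 * ρ) ^ (K - I) := by positivity
    have hMδ0 : 0 ≤ 3 * (M : ℝ) * δ := by positivity
    have h5 : (M * (N + 1) : ℝ) * (B * (Bd * ((9 * ρ) ^ (K - I) * 3 ^ (N + M)))) * 3 ^ N =
        (M * (N + 1) : ℝ) * B * Bd * ((9 * ρ) ^ (K - I) * (3 ^ (N + M) * 3 ^ N)) := by ring
    have h6 : (M * (N + 1) : ℝ) * (B * (Bd * (3 ^ (N + M) * (3 * M * δ)))) =
        (M * (N + 1) : ℝ) * B * Bd * (3 ^ (N + M) * (3 * M * δ)) := by ring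
    rw [h5, h6, ← mul_add]
    have h7 : (9 * ρ) ^ (K - I) * (3 ^ (N + M) * 3 ^ N) + 3 ^ (N + M) * (3 * M * δ) ≤
        9 ^ (N + M) * ((9 * ρ) ^ (K - I) + 3 * M * δ) := by
      have h8 := mul_le_mul_of_nonneg_left h3N hq0
      have h9 := mul_le_mul_of_nonneg_right h3M hMδ0
      nlinarith
    calc (M * (N + 1) : ℝ) * B * Bd * ((9 * ρ) ^ (K - I) * (3 ^ (N + M) * 3 ^ N) +
          3 ^ (N + M) * (3 * M * δ))
        ≤ (M * (N + 1) : ℝ) * B * Bd * (9 ^ (N + M) * ((9 * ρ) ^ (K - I) + 3 * M * δ)) :=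
          mul_le_mul_of_nonneg_left h7 (by positivity)
      _ = _ := by ring
  have hR : ((M * (N + 1) : ℝ) * Bd) ^ 4 * P ^ N * A ^ M * 9 ^ (N + M) *
      ((9 * ρ) ^ (K - I) + 3 * M * δ) =
      P ^ N * A ^ M * ((M * (N + 1) : ℝ) * (B * (Bd * (9 ^ (N + M) *
        ((9 * ρ) ^ (K - I) + 3 * M * δ))))) := by
    rw [hB]; ring
  rw [hR]
  refine hξ1.trans ?_
  rw [hξR, abs_mul, abs_of_nonneg (by positivity)]
  exact mul_le_mul hqc hXib (abs_nonneg _) (by positivity)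

end H85STAR
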