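import Mathlib

namespace H85STAR

open Finset

lemma choose_bound (g e i R K : ℕ) (hg : 0 < g) (he : e ≤ g * R) (hi : i ≤ K) :
    (Nat.choose e i : ℝ) ≤ (g : ℝ) ^ K * 3 ^ R := by
  have hg' : (1 : ℝ) ≤ g := by exact_mod_cast hg
  have hg0 : (0 : ℝ) < g := by linarith
  have h1 : (Nat.choose e i : ℝ) ≤ (g : ℝ) ^ i * (1 + 1 / (g : ℝ)) ^ e := by
    have hb : (1 / (g : ℝ)) ^ i * (Nat.choose e i : ℝ) ≤ (1 / (g : ℝ) + 1) ^ e := by
      rcases le_or_gt i e with h | h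
      · have := add_pow (1 / (g : ℝ)) 1 e
        rw [this]
        have hs := Finset.single_le_sum (s := Finset.range (e + 1))
          (f := fun m => (1 / (g : ℝ)) ^ m * 1 ^ (e - m) * (e.choose m : ℝ))
          (fun m _ => by positivity) (Finset.mem_range.mpr (Nat.lt_succ_of_le h))
        simpa using hs
      · rw [Nat.choose_eq_zero_of_lt h]
        simp
        positivity
    have h2 : (g : ℝ) ^ i * ((1 / (g : ℝ)) ^ i * (Nat.choose e i : ℝ)) ≤
        (g : ℝ) ^ i * (1 / (g : ℝ) + 1) ^ e := mul_le_mul_of_nonneg_left hb (by positivity)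
    have h3 : (g : ℝ) ^ i * ((1 / (g : ℝ)) ^ i * (Nat.choose e i : ℝ)) = (Nat.choose e i : ℝ) := by
      rw [← mul_assoc, ← mul_pow, mul_one_div_cancel hg0.ne', one_pow, one_mul]
    rw [h3] at h2
    rw [add_comm 1 (1 / (g : ℝ))]
    exact h2
  refine h1.trans ?_
  have h4 : (g : ℝ) ^ i ≤ (g : ℝ) ^ K := pow_le_pow_right₀ hg' hi
  have h5 : (1 + 1 / (g : ℝ)) ^ e ≤ (3 : ℝ) ^ R := by
    have h6 : (1 + 1 / (g : ℝ)) ≤ Real.exp (1 / (g : ℝ)) := by
      have := Real.add_one_le_exp (1 / (g : ℝ))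
      linarith
    calc (1 + 1 / (g : ℝ)) ^ e ≤ (1 + 1 / (g : ℝ)) ^ (g * R) := by
          apply pow_le_pow_right₀ _ he
          have : (0 : ℝ) ≤ 1 / (g : ℝ) := by positivity
          linarith
      _ ≤ (Real.exp (1 / (g : ℝ))) ^ (g * R) := by
          apply pow_le_pow_left₀ (by positivity) h6
      _ = (Real.exp 1) ^ R := by
          rw [pow_mul, ← Real.exp_nat_mul, mul_one_div_cancel hg0.ne']
      _ ≤ 3 ^ R := by
          apply pow_le_pow_left₀ (Real.exp_pos 1).le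
          have := Real.exp_one_lt_d9
          linarith
  exact mul_le_mul h4 h5 (by positivity) (by positivity)

attribute [local instance] Matrix.seminormedAddCommGroup

/-- Siegel step -/
lemma siegel_step (g z M N K : ℕ) (hg : 0 < g) (hz : z ≤ g) (hM : 1 ≤ M)
    (hK0 : 0 < K) (hK : 4 * K ≤ 3 * (M * N)) :
    ∃ b : Fin M × Fin (N + 1) → ℤ, b ≠ 0 ∧
      (∀ i < K, ∑ w : Fin M × Fin (N + 1),
        b w * (Nat.choose (g * (w.2 : ℕ) + z * (w.1 : ℕ)) i : ℤ) = 0) ∧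
      ∀ w, ((|b w| : ℤ) : ℝ) ≤ ((M * (N + 1) : ℝ) * ((g : ℝ) ^ K * 3 ^ (N + M))) ^ 3 := by
  have hg' : (1 : ℝ) ≤ g := by exact_mod_cast hg
  set A : Matrix (Fin K) (Fin M × Fin (N + 1)) ℤ :=
    fun i w => (Nat.choose (g * (w.2 : ℕ) + z * (w.1 : ℕ)) (i : ℕ) : ℤ) with hA
  have hcard : Fintype.card (Fin M × Fin (N + 1)) = M * (N + 1) := by simp
  have hcK : Fintype.card (Fin K) = K := by simp
  have hlt : K < M * (N + 1) := by nlinarith
  obtain ⟨t, ht0, hAt, htn⟩ := Int.Matrix.exists_ne_zero_int_vec_norm_le A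
    (by rw [hcard, hcK]; exact hlt) (by rw [hcK]; exact hK0)
  refine ⟨t, ht0, ?_, ?_⟩
  · intro i hi
    have := congrFun hAt ⟨i, hi⟩
    simp only [Matrix.mulVec, dotProduct, hA, Pi.zero_apply] at this
    rw [← this]
    apply Finset.sum_congr rfl
    intro w _
    ring
  · intro w
    set C : ℝ := (g : ℝ) ^ K * 3 ^ (N + M) with hC
    have hC1 : (1 : ℝ) ≤ C := by
      have h1 : (1 : ℝ) ≤ (g : ℝ) ^ K := one_le_pow₀ hg'
      have h2 : (1 : ℝ) ≤ (3 : ℝ) ^ (N + M) := one_le_pow₀ (by norm_num)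
      nlinarith
    have hAn : ‖A‖ ≤ C := by
      rw [Matrix.norm_le_iff (by linarith)]
      intro i w
      simp only [hA]
      rw [Int.norm_eq_abs]
      have hch := choose_bound g (g * (w.2 : ℕ) + z * (w.1 : ℕ)) i (N + M) K hg (by
        have h1 : (w.2 : ℕ) ≤ N := Nat.lt_succ_iff.mp w.2.2
        have h2 : (w.1 : ℕ) ≤ M := w.1.2.le
        calc g * (w.2 : ℕ) + z * (w.1 : ℕ) ≤ g * N + g * M := by
              apply Nat.add_le_add
              · exact Nat.mul_le_mul_left _ h1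
              · exact Nat.mul_le_mul hz h2
          _ = g * (N + M) := by ring) i.2.le
      rw [abs_of_nonneg (by positivity), Int.cast_natCast, hC]
      exact hch
    have hmax : max 1 ‖A‖ ≤ C := max_le hC1 hAn
    have hbase : (1 : ℝ) ≤ (M * (N + 1) : ℝ) * C := by
      have h1 : (1 : ℝ) ≤ (M : ℝ) := by exact_mod_cast hM
      have h2 : (1 : ℝ) ≤ (N : ℝ) + 1 := by
        have : (0 : ℝ) ≤ N := Nat.cast_nonneg _
        linarith
      have h3 : (1 : ℝ) ≤ (M : ℝ) * (N + 1) := by nlinarith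
      nlinarith
    have hle : ‖t w‖ ≤ ‖t‖ := norm_le_pi_norm t w
    have hw : ((|t w| : ℤ) : ℝ) = ‖t w‖ := by
      rw [Int.norm_eq_abs]; push_cast; rfl
    rw [hw]
    refine hle.trans (htn.trans ?_)
    have hb1 : ((Fintype.card (Fin M × Fin (N + 1)) : ℕ) : ℝ) * max 1 ‖A‖ ≤ (M * (N + 1) : ℝ) * C := by
      rw [hcard]; push_cast
      exact mul_le_mul_of_nonneg_left hmax (by positivity)
    have hpos : (0 : ℝ) ≤ ((Fintype.card (Fin M × Fin (N + 1)) : ℕ) : ℝ) * max 1 ‖A‖ := by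
      positivity
    have hexp : ((Fintype.card (Fin K) : ℕ) : ℝ) /
        (((Fintype.card (Fin M × Fin (N + 1)) : ℕ) : ℝ) - ((Fintype.card (Fin K) : ℕ) : ℝ)) ≤ 3 := by
      rw [hcard, hcK]
      have hd : (0 : ℝ) < ((M * (N + 1) : ℕ) : ℝ) - (K : ℝ) := by
        have : (K : ℝ) < ((M * (N + 1) : ℕ) : ℝ) := by exact_mod_cast hlt
        linarith
      rw [div_le_iff₀ hd]
      have h5 : (4 * K : ℝ) ≤ 3 * (M * N) := by exact_mod_cast hK
      push_cast
      have h6 : (0 : ℝ) ≤ M := Nat.cast_nonneg _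
      nlinarith
    have hexp0 : 0 ≤ ((Fintype.card (Fin K) : ℕ) : ℝ) /
        (((Fintype.card (Fin M × Fin (N + 1)) : ℕ) : ℝ) - ((Fintype.card (Fin K) : ℕ) : ℝ)) := by
      rw [hcard, hcK]
      have hd : (0 : ℝ) < ((M * (N + 1) : ℕ) : ℝ) - (K : ℝ) := by
        have : (K : ℝ) < ((M * (N + 1) : ℕ) : ℝ) := by exact_mod_cast hlt
        linarith
      positivity
    calc (((Fintype.card (Fin M × Fin (N + 1)) : ℕ) : ℝ) * max 1 ‖A‖) ^
          (((Fintype.card (Fin K) : ℕ) : ℝ) /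
        (((Fintype.card (Fin M × Fin (N + 1)) : ℕ) : ℝ) - ((Fintype.card (Fin K) : ℕ) : ℝ)))
        ≤ ((M * (N + 1) : ℝ) * C) ^ (((Fintype.card (Fin K) : ℕ) : ℝ) /
        (((Fintype.card (Fin M × Fin (N + 1)) : ℕ) : ℝ) - ((Fintype.card (Fin K) : ℕ) : ℝ))) :=
          Real.rpow_le_rpow hpos hb1 hexp0
      _ ≤ ((M * (N + 1) : ℝ) * C) ^ (3 : ℝ) := Real.rpow_le_rpow_of_exponent_le hbase hexp
      _ = ((M * (N + 1) : ℝ) * C) ^ 3 := by
          rw [← Real.rpow_natCast]; norm_num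

end H85STAR
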