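import Pool.Agent.H85.STAR.Zero

namespace H85STAR

open Finset

/-- pigeonhole over subsets -/
lemma pigeon (g : ℕ) (hg : 0 < g) (Kn T Q : Finset ℕ) (hT : ∀ t ∈ T, t.Prime) (m : ℕ → ℕ)
    (w : ℕ → ℕ → ℤ) (hQT : ∀ r ∈ Q, ∀ t ∈ T, Nat.Coprime r t)
    (hpig : g ^ Kn.card * ∏ t ∈ T, t ^ m t < 2 ^ Q.card) :
    ∃ D₁ D₂ : Finset ℕ, D₁ ⊆ Q ∧ D₂ ⊆ Q ∧ Disjoint D₁ D₂ ∧ (D₁ ≠ ∅ ∨ D₂ ≠ ∅) ∧
      (∀ k ∈ Kn, (g : ℤ) ∣ ∑ r ∈ D₁, w r k - ∑ r ∈ D₂, w r k) ∧
      (∀ t ∈ T, ((t : ℤ) ^ m t) ∣ ((∏ r ∈ D₁, r : ℕ) : ℤ) - ((∏ r ∈ D₂, r : ℕ) : ℤ)) := by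
  classical
  have : NeZero g := ⟨hg.ne'⟩
  have : ∀ t : ↥T, NeZero ((t : ℕ) ^ m t) := fun t => ⟨pow_ne_zero _ (hT t t.2).ne_zero⟩
  set Φ : Finset ℕ → (↥Kn → ZMod g) × ((t : ↥T) → ZMod ((t : ℕ) ^ m t)) := fun S =>
    (fun k => ((∑ r ∈ S, w r k : ℤ) : ZMod g), fun t => ((∏ r ∈ S, r : ℕ) : ZMod ((t : ℕ) ^ m t)))
    with hΦ
  have hcard : Fintype.card ((↥Kn → ZMod g) × ((t : ↥T) → ZMod ((t : ℕ) ^ m t))) =
      g ^ Kn.card * ∏ t ∈ T, t ^ m t := by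
    rw [Fintype.card_prod, Fintype.card_pi, Fintype.card_pi]
    congr 1
    · rw [Finset.prod_const, ZMod.card, Finset.card_univ, Fintype.card_coe]
    · simp only [ZMod.card]
      exact Finset.prod_coe_sort T (fun t => t ^ m t)
  have hlt : (Finset.univ : Finset ((↥Kn → ZMod g) × ((t : ↥T) → ZMod ((t : ℕ) ^ m t)))).card <
      (Q.powerset).card := by
    rw [Finset.card_univ, hcard, Finset.card_powerset]
    exact hpig
  obtain ⟨S₁, hS₁, S₂, hS₂, hne, heq⟩ := Finset.exists_ne_map_eq_of_card_lt_of_maps_to hlt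
    (f := Φ) (fun S _ => Finset.mem_coe.mpr (Finset.mem_univ _))
  rw [Finset.mem_powerset] at hS₁ hS₂
  have h1 : S₁ = (S₁ \ S₂) ∪ (S₁ ∩ S₂) := by
    rw [Finset.sdiff_union_inter]
  have h2 : S₂ = (S₂ \ S₁) ∪ (S₁ ∩ S₂) := by
    rw [Finset.inter_comm, Finset.sdiff_union_inter]
  have hd1 : Disjoint (S₁ \ S₂) (S₁ ∩ S₂) := Finset.disjoint_sdiff_inter _ _
  have hd2 : Disjoint (S₂ \ S₁) (S₁ ∩ S₂) := by
    rw [Finset.inter_comm]; exact Finset.disjoint_sdiff_inter _ _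
  refine ⟨S₁ \ S₂, S₂ \ S₁, (Finset.sdiff_subset).trans hS₁, (Finset.sdiff_subset).trans hS₂,
    ?_, ?_, ?_, ?_⟩
  · exact disjoint_sdiff_sdiff
  · by_contra hcon
    push Not at hcon
    apply hne
    apply Finset.Subset.antisymm
    · exact Finset.sdiff_eq_empty_iff_subset.mp hcon.1
    · exact Finset.sdiff_eq_empty_iff_subset.mp hcon.2
  · intro k hk
    have e1 := congrFun (congrArg Prod.fst heq) ⟨k, hk⟩
    simp only [hΦ] at e1
    have e2 : ∑ r ∈ S₁, w r k = ∑ r ∈ S₁ \ S₂, w r k + ∑ r ∈ S₁ ∩ S₂, w r k := by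
      rw [← Finset.sum_union hd1, ← h1]
    have e3 : ∑ r ∈ S₂, w r k = ∑ r ∈ S₂ \ S₁, w r k + ∑ r ∈ S₁ ∩ S₂, w r k := by
      rw [← Finset.sum_union hd2, ← h2]
    rw [ZMod.intCast_eq_intCast_iff_dvd_sub] at e1
    have e4 : ∑ r ∈ S₁ \ S₂, w r k - ∑ r ∈ S₂ \ S₁, w r k = -(∑ r ∈ S₂, w r k - ∑ r ∈ S₁, w r k) := by
      rw [e2, e3]; ring
    rw [e4]
    exact (dvd_neg).mpr e1
  · intro t ht
    have e1 := congrFun (congrArg Prod.snd heq) ⟨t, ht⟩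
    simp only [hΦ] at e1
    have e2 : ∏ r ∈ S₁, r = (∏ r ∈ S₁ \ S₂, r) * ∏ r ∈ S₁ ∩ S₂, r := by
      rw [← Finset.prod_union hd1, ← h1]
    have e3 : ∏ r ∈ S₂, r = (∏ r ∈ S₂ \ S₁, r) * ∏ r ∈ S₁ ∩ S₂, r := by
      rw [← Finset.prod_union hd2, ← h2]
    rw [e2, e3, Nat.cast_mul, Nat.cast_mul] at e1
    have hu : IsUnit (((∏ r ∈ S₁ ∩ S₂, r : ℕ)) : ZMod (t ^ m t)) := by
      rw [ZMod.isUnit_iff_coprime]
      apply Nat.Coprime.pow_right
      apply Nat.Coprime.prod_left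
      intro r hr
      exact hQT r (hS₁ (Finset.mem_inter.mp hr).1) t ht
    have e4 := hu.mul_right_cancel e1
    have e5 : (((∏ r ∈ S₁ \ S₂, r : ℕ) : ℤ) : ZMod (t ^ m t)) =
        (((∏ r ∈ S₂ \ S₁, r : ℕ) : ℤ) : ZMod (t ^ m t)) := by
      rw [Int.cast_natCast, Int.cast_natCast]; exact e4
    rw [ZMod.intCast_eq_intCast_iff_dvd_sub] at e5
    rw [← dvd_neg, neg_sub]
    have : ((t ^ m t : ℕ) : ℤ) = (t : ℤ) ^ m t := by push_cast; rfl
    rw [this] at e5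
    exact e5


lemma prod_modEq (n : ℤ) (D : Finset ℕ) (F G : ℕ → ℤ) (s : ℤ)
    (h : ∀ r ∈ D, n ∣ F r - s * G r) :
    n ∣ ∏ r ∈ D, F r - s ^ D.card * ∏ r ∈ D, G r := by
  classical
  induction D using Finset.induction_on with
  | empty => simp
  | insert a D ha ih =>
    rw [Finset.prod_insert ha, Finset.prod_insert ha, Finset.card_insert_of_notMem ha]
    have h1 := h a (Finset.mem_insert_self _ _)
    have h2 := ih (fun r hr => h r (Finset.mem_insert_of_mem hr))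
    have : F a * ∏ r ∈ D, F r - s ^ (D.card + 1) * (G a * ∏ r ∈ D, G r) =
        (F a - s * G a) * ∏ r ∈ D, F r + s * G a * (∏ r ∈ D, F r - s ^ D.card * ∏ r ∈ D, G r) := by
      ring
    rw [this]
    exact dvd_add (Dvd.dvd.mul_right h1 _) (Dvd.dvd.mul_left h2 _)

lemma prod_le_pow_real (D : Finset ℕ) (f : ℕ → ℝ) (B : ℝ) (h0 : ∀ r ∈ D, 0 ≤ f r)
    (h : ∀ r ∈ D, f r ≤ B) : ∏ r ∈ D, f r ≤ B ^ D.card := by
  calc ∏ r ∈ D, f r ≤ ∏ _r ∈ D, B := Finset.prod_le_prod h0 h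
    _ = B ^ D.card := by rw [Finset.prod_const]

/-- STAR, one class -/
theorem star1 (g z M N K I : ℕ) (Kn T Q : Finset ℕ) (zz : ℕ → ℕ) (u v : ℕ → ℕ → ℕ) (s : ℤ)
    (m x : ℕ → ℕ) (P H : ℝ)
    (hg : g.Prime) (hgodd : Odd g) (hz : z < g) (hT : ∀ t ∈ T, t.Prime) (hKn : ∀ k ∈ Kn, k.Prime)
    (hQ : ∀ r ∈ Q, r.Prime) (hKT : Disjoint Kn T) (hQK : Disjoint Q Kn) (hQT : Disjoint Q T)
    (hTg : ∀ t ∈ T, t ≠ g ∧ ¬ g ∣ t - 1) (hzz : ∀ r ∈ Q, zz r % g = z) (hzz1 : ∀ r ∈ Q, 1 ≤ zz r)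
    (hs : s = 1 ∨ s = -1)
    (hcong : ∀ r ∈ Q, ∀ t ∈ T, (t : ℤ) ^ x t ∣
      ((r ^ zz r * ∏ k ∈ Kn, k ^ u r k : ℕ) : ℤ) - s * ((∏ k ∈ Kn, k ^ v r k : ℕ) : ℤ))
    (hH1 : ∀ r ∈ Q, ((r ^ zz r * ∏ k ∈ Kn, k ^ u r k : ℕ) : ℝ) ≤ H)
    (hH2 : ∀ r ∈ Q, ((∏ k ∈ Kn, k ^ v r k : ℕ) : ℝ) ≤ H) (hH : 1 ≤ H)
    (hP : ∀ r ∈ Q, (r : ℝ) ≤ P) (hP1 : 1 ≤ P)
    (hm : ∀ t ∈ T, 1 ≤ m t)
    (hpig : g ^ Kn.card * ∏ t ∈ T, t ^ m t < 2 ^ Q.card)
    (hM : 1 ≤ M) (hMg : M ≤ g) (hK : 4 * K ≤ 3 * (M * N)) (hKI : M * N + 2 * M ≤ K + I)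
    (hIK : I ≤ K) (hx : ∀ t ∈ T, x t ≤ m t * (K - I)) :
    (∏ t ∈ T, (t : ℝ) ^ x t) ≤
      ((M * (N + 1) : ℝ) * ((g : ℝ) ^ K * 3 ^ (N + M))) ^ 4 * (P ^ Q.card) ^ N *
        (H ^ ((Q.card : ℝ) / g)) ^ M := by
  classical
  have hg0 : 0 < g := hg.pos
  have hQTc : ∀ r ∈ Q, ∀ t ∈ T, Nat.Coprime r t := by
    intro r hr t ht
    rw [Nat.coprime_primes (hQ r hr) (hT t ht)]
    rintro rfl
    exact Finset.disjoint_left.mp hQT hr ht
  have hKTc : ∀ k ∈ Kn, ∀ t ∈ T, Nat.Coprime k t := by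
    intro r hr t ht
    rw [Nat.coprime_primes (hKn r hr) (hT t ht)]
    rintro rfl
    exact Finset.disjoint_left.mp hKT hr ht
  obtain ⟨D₁, D₂, hD₁, hD₂, hdis, hne, hexp, hmod⟩ := pigeon g hg0 Kn T Q hT m
    (fun r k => (u r k : ℤ) - (v r k : ℤ)) hQTc hpig
  set p : ℕ := ∏ r ∈ D₁, r with hp
  set q : ℕ := ∏ r ∈ D₂, r with hq
  set e : ℕ → ℕ := fun k => ∑ r ∈ D₁, u r k + ∑ r ∈ D₂, v r k with he
  set e' : ℕ → ℕ := fun k => ∑ r ∈ D₁, v r k + ∑ r ∈ D₂, u r k with he'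
  have hee : ∀ k ∈ Kn, (g : ℤ) ∣ (e k : ℤ) - (e' k : ℤ) := by
    intro k hk
    have h1 := hexp k hk
    have h2 : ∑ r ∈ D₁, ((u r k : ℤ) - (v r k : ℤ)) - ∑ r ∈ D₂, ((u r k : ℤ) - (v r k : ℤ)) =
        (e k : ℤ) - (e' k : ℤ) := by
      simp only [he, he', Finset.sum_sub_distrib]
      push_cast
      ring
    rw [← h2]; exact h1
  set μ : ℕ → ℕ := fun k => min (e k) (e' k) with hμ
  set Ep : ℕ → ℕ := fun k => (e k - e' k) / g with hEp
  set Em : ℕ → ℕ := fun k => (e' k - e k) / g with hEm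
  have hsplit : ∀ k ∈ Kn, e k = μ k + g * Ep k ∧ e' k = μ k + g * Em k := by
    intro k hk
    have h1 := hee k hk
    simp only [hμ, hEp, hEm]
    rcases le_total (e k) (e' k) with h | h
    · have h2 : g ∣ e' k - e k := by
        have h3 : (g : ℤ) ∣ ((e' k - e k : ℕ) : ℤ) := by
          rw [Nat.cast_sub h, ← dvd_neg, neg_sub]; exact h1
        exact_mod_cast h3
      rw [min_eq_left h, Nat.mul_div_cancel' h2, Nat.sub_eq_zero_of_le h]
      simp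
      omega
    · have h2 : g ∣ e k - e' k := by
        have h3 : (g : ℤ) ∣ ((e k - e' k : ℕ) : ℤ) := by
          rw [Nat.cast_sub h]; exact h1
        exact_mod_cast h3
      rw [min_eq_right h, Nat.mul_div_cancel' h2, Nat.sub_eq_zero_of_le h]
      simp
      omega
  set wn : ℕ := (∏ k ∈ Kn, k ^ Ep k) * ∏ r ∈ D₁, r ^ (zz r / g) with hwn
  set wd : ℕ := (∏ k ∈ Kn, k ^ Em k) * ∏ r ∈ D₂, r ^ (zz r / g) with hwd
  set Cm : ℕ := ∏ k ∈ Kn, k ^ μ k with hCm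
  set N1 : ℕ := (∏ r ∈ D₁, (r ^ zz r * ∏ k ∈ Kn, k ^ u r k)) * ∏ r ∈ D₂, ∏ k ∈ Kn, k ^ v r k with hN1
  set N2 : ℕ := (∏ r ∈ D₁, ∏ k ∈ Kn, k ^ v r k) * ∏ r ∈ D₂, (r ^ zz r * ∏ k ∈ Kn, k ^ u r k) with hN2
  have hzsplit : ∀ D ⊆ Q, ∏ r ∈ D, r ^ zz r = (∏ r ∈ D, r ^ (zz r / g)) ^ g * (∏ r ∈ D, r) ^ z := by
    intro D hD
    rw [← Finset.prod_pow, ← Finset.prod_pow, ← Finset.prod_mul_distrib]
    apply Finset.prod_congr rfl
    intro r hr
    rw [← pow_mul, ← pow_add]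
    congr 1
    rw [← hzz r (hD hr)]
    have := Nat.div_add_mod (zz r) g
    rw [mul_comm (zz r / g) g]
    exact this.symm
  have hN1' : N1 = Cm * (wn ^ g * p ^ z) := by
    have h1 : N1 = (∏ r ∈ D₁, r ^ zz r) * ∏ k ∈ Kn, k ^ e k := by
      simp only [hN1, he]
      rw [Finset.prod_mul_distrib, mul_assoc]
      congr 1
      rw [Finset.prod_comm, Finset.prod_comm (s := D₂), ← Finset.prod_mul_distrib]
      apply Finset.prod_congr rfl
      intro k _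
      rw [Finset.prod_pow_eq_pow_sum, Finset.prod_pow_eq_pow_sum, ← pow_add]
    have h2 : ∏ k ∈ Kn, k ^ e k = Cm * (∏ k ∈ Kn, k ^ Ep k) ^ g := by
      rw [hCm, ← Finset.prod_pow, ← Finset.prod_mul_distrib]
      apply Finset.prod_congr rfl
      intro k hk
      rw [(hsplit k hk).1, pow_add, ← pow_mul, mul_comm (Ep k) g]
    rw [h1, h2, hzsplit D₁ hD₁, hwn, mul_pow, hp]
    ring
  have hN2' : N2 = Cm * (wd ^ g * q ^ z) := by
    have h1 : N2 = (∏ r ∈ D₂, r ^ zz r) * ∏ k ∈ Kn, k ^ e' k := by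
      simp only [hN2, he']
      rw [Finset.prod_mul_distrib, mul_left_comm]
      congr 1
      rw [Finset.prod_comm, Finset.prod_comm (s := D₂), ← Finset.prod_mul_distrib]
      apply Finset.prod_congr rfl
      intro k _
      rw [Finset.prod_pow_eq_pow_sum, Finset.prod_pow_eq_pow_sum, ← pow_add]
    have h2 : ∏ k ∈ Kn, k ^ e' k = Cm * (∏ k ∈ Kn, k ^ Em k) ^ g := by
      rw [hCm, ← Finset.prod_pow, ← Finset.prod_mul_distrib]
      apply Finset.prod_congr rfl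
      intro k hk
      rw [(hsplit k hk).2, pow_add, ← pow_mul, mul_comm (Em k) g]
    rw [h1, h2, hzsplit D₂ hD₂, hwd, mul_pow, hq]
    ring
  -- positivity
  have hKpos : ∀ k ∈ Kn, 0 < k := fun k hk => (hKn k hk).pos
  have hQpos : ∀ r ∈ Q, 0 < r := fun r hr => (hQ r hr).pos
  have hCm0 : 0 < Cm := Finset.prod_pos (fun k hk => pow_pos (hKpos k hk) _)
  have hwn0 : 0 < wn := Nat.mul_pos (Finset.prod_pos (fun k hk => pow_pos (hKpos k hk) _))
    (Finset.prod_pos (fun r hr => pow_pos (hQpos r (hD₁ hr)) _))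
  have hwd0 : 0 < wd := Nat.mul_pos (Finset.prod_pos (fun k hk => pow_pos (hKpos k hk) _))
    (Finset.prod_pos (fun r hr => pow_pos (hQpos r (hD₂ hr)) _))
  have hp0 : 0 < p := Finset.prod_pos (fun r hr => hQpos r (hD₁ hr))
  have hq0 : 0 < q := Finset.prod_pos (fun r hr => hQpos r (hD₂ hr))
  -- the sign
  set s' : ℤ := s ^ (D₁.card + D₂.card) with hs'
  have hs2 : s * s = 1 := by rcases hs with h | h <;> rw [h] <;> norm_num
  have hs'2 : s' = 1 ∨ s' = -1 := by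
    rcases hs with h | h
    · left; rw [hs', h, one_pow]
    · rw [hs', h]; exact neg_one_pow_eq_or ℤ _
  have hs'g : s' ^ g = s' := by
    rcases hs'2 with h | h
    · rw [h, one_pow]
    · rw [h, hgodd.neg_one_pow]
  have hN12 : ∀ t ∈ T, (t : ℤ) ^ x t ∣ (N1 : ℤ) - s' * (N2 : ℤ) := by
    intro t ht
    have h1 := prod_modEq ((t : ℤ) ^ x t) D₁
      (fun r => ((r ^ zz r * ∏ k ∈ Kn, k ^ u r k : ℕ) : ℤ))
      (fun r => ((∏ k ∈ Kn, k ^ v r k : ℕ) : ℤ)) s (fun r hr => hcong r (hD₁ hr) t ht)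
    have h2 := prod_modEq ((t : ℤ) ^ x t) D₂
      (fun r => ((∏ k ∈ Kn, k ^ v r k : ℕ) : ℤ))
      (fun r => ((r ^ zz r * ∏ k ∈ Kn, k ^ u r k : ℕ) : ℤ)) s (fun r hr => by
        have h3 := hcong r (hD₂ hr) t ht
        have h4 : ((∏ k ∈ Kn, k ^ v r k : ℕ) : ℤ) - s * ((r ^ zz r * ∏ k ∈ Kn, k ^ u r k : ℕ) : ℤ) =
          (-s) * (((r ^ zz r * ∏ k ∈ Kn, k ^ u r k : ℕ) : ℤ) - s * ((∏ k ∈ Kn, k ^ v r k : ℕ) : ℤ)) := by
          linear_combination (-((∏ k ∈ Kn, k ^ v r k : ℕ) : ℤ)) * hs2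
        rw [h4]
        exact Dvd.dvd.mul_left h3 _)
    simp only [hN1, hN2, hs']
    push_cast at h1 h2 ⊢
    set a1 : ℤ := ∏ r ∈ D₁, ((r : ℤ) ^ zz r * ∏ k ∈ Kn, (k : ℤ) ^ u r k) with ha1
    set b1 : ℤ := ∏ r ∈ D₁, ∏ k ∈ Kn, (k : ℤ) ^ v r k with hb1
    set a2 : ℤ := ∏ r ∈ D₂, ((r : ℤ) ^ zz r * ∏ k ∈ Kn, (k : ℤ) ^ u r k) with ha2
    set b2 : ℤ := ∏ r ∈ D₂, ∏ k ∈ Kn, (k : ℤ) ^ v r k with hb2
    have h5 : a1 * b2 - s ^ (D₁.card + D₂.card) * (b1 * a2) =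
        (a1 - s ^ D₁.card * b1) * b2 + s ^ D₁.card * b1 * (b2 - s ^ D₂.card * a2) := by
      rw [pow_add]; ring
    rw [h5]
    exact dvd_add (Dvd.dvd.mul_right h1 _) (Dvd.dvd.mul_left h2 _)
  set a : ℤ := s' * (wd : ℤ) with ha
  set c : ℤ := (wn : ℤ) with hc
  have htint : ∀ t ∈ T, ∀ n : ℕ, Nat.Coprime n t → ¬ t ∣ n := by
    intro t ht n hn hd
    exact (Nat.Prime.coprime_iff_not_dvd (hT t ht)).mp hn.symm hd
  have hprodKT : ∀ t ∈ T, ∀ f : ℕ → ℕ, Nat.Coprime (∏ k ∈ Kn, k ^ f k) t := by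
    intro t ht f
    apply Nat.Coprime.prod_left
    intro k hk
    exact Nat.Coprime.pow_left _ (hKTc k hk t ht)
  have hprodQT : ∀ t ∈ T, ∀ D ⊆ Q, ∀ f : ℕ → ℕ, Nat.Coprime (∏ r ∈ D, r ^ f r) t := by
    intro t ht D hD f
    apply Nat.Coprime.prod_left
    intro r hr
    exact Nat.Coprime.pow_left _ (hQTc r (hD hr) t ht)
  have hcongr : ∀ t ∈ T, (t : ℤ) ^ x t ∣ a ^ g * (q : ℤ) ^ z - c ^ g * (p : ℤ) ^ z := by
    intro t ht
    have h1 := hN12 t ht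
    rw [hN1', hN2'] at h1
    push_cast at h1
    have h2 : (Cm : ℤ) * ((wn : ℤ) ^ g * (p : ℤ) ^ z) - s' * ((Cm : ℤ) * ((wd : ℤ) ^ g * (q : ℤ) ^ z)) =
        -(Cm : ℤ) * (a ^ g * (q : ℤ) ^ z - c ^ g * (p : ℤ) ^ z) := by
      rw [ha, hc, mul_pow, hs'g]; ring
    rw [h2] at h1
    have h3 : IsCoprime ((t : ℤ) ^ x t) (-(Cm : ℤ)) := by
      apply IsCoprime.pow_left
      apply IsCoprime.neg_right
      rw [Nat.isCoprime_iff_coprime]
      exact (hprodKT t ht μ).symm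
    exact h3.dvd_of_dvd_mul_left h1
  have hqt : ∀ t ∈ T, ¬ t ∣ q := by
    intro t ht
    apply htint t ht
    have := hprodQT t ht D₂ hD₂ (fun _ => 1)
    simpa [hq] using this
  have hpt : ∀ t ∈ T, ¬ t ∣ p := by
    intro t ht
    apply htint t ht
    have := hprodQT t ht D₁ hD₁ (fun _ => 1)
    simpa [hp] using this
  have hwnt : ∀ t ∈ T, Nat.Coprime wn t := by
    intro t ht
    exact Nat.Coprime.mul_left (hprodKT t ht Ep) (hprodQT t ht D₁ hD₁ (fun r => zz r / g))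
  have hwdt : ∀ t ∈ T, Nat.Coprime wd t := by
    intro t ht
    exact Nat.Coprime.mul_left (hprodKT t ht Em) (hprodQT t ht D₂ hD₂ (fun r => zz r / g))
  have hct : ∀ t ∈ T, ¬ (t : ℤ) ∣ c := by
    intro t ht h
    rw [hc] at h
    exact htint t ht wn (hwnt t ht) (by exact_mod_cast h)
  have hac : ∀ t ∈ T, 1 ≤ x t → (t : ℤ) ∣ a - c := by
    intro t ht hx1
    have htp := hT t ht
    have : Fact t.Prime := ⟨htp⟩
    have h1 : (t : ℤ) ∣ a ^ g * (q : ℤ) ^ z - c ^ g * (p : ℤ) ^ z :=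
      (dvd_pow_self _ (by omega)).trans (hcongr t ht)
    have h2 : (t : ℤ) ∣ (p : ℤ) - (q : ℤ) :=
      (dvd_pow_self _ (by have := hm t ht; omega)).trans (hmod t ht)
    have e1 : ((a : ℤ) : ZMod t) ^ g * (q : ZMod t) ^ z = ((c : ℤ) : ZMod t) ^ g * (p : ZMod t) ^ z := by
      have := (ZMod.intCast_zmod_eq_zero_iff_dvd _ t).mpr h1
      push_cast at this
      exact sub_eq_zero.mp this
    have e2 : (p : ZMod t) = (q : ZMod t) := by
      have := (ZMod.intCast_zmod_eq_zero_iff_dvd _ t).mpr h2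
      push_cast at this
      exact sub_eq_zero.mp this
    have e3 : (q : ZMod t) ≠ 0 := by
      intro h
      rw [ZMod.natCast_eq_zero_iff] at h
      exact hqt t ht h
    rw [e2] at e1
    have e4 : ((a : ℤ) : ZMod t) ^ g = ((c : ℤ) : ZMod t) ^ g :=
      mul_right_cancel₀ (pow_ne_zero _ e3) e1
    have e5 : ((c : ℤ) : ZMod t) ≠ 0 := by
      intro h
      rw [ZMod.intCast_zmod_eq_zero_iff_dvd] at h
      exact hct t ht h
    have e6 : (((a : ℤ) : ZMod t) / ((c : ℤ) : ZMod t)) ^ g = 1 := by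
      rw [div_pow, e4, div_self (pow_ne_zero _ e5)]
    have e7 : ((a : ℤ) : ZMod t) ≠ 0 := by
      intro h
      rw [h, zero_pow hg0.ne'] at e4
      exact pow_ne_zero g e5 e4.symm
    have e8 : (((a : ℤ) : ZMod t) / ((c : ℤ) : ZMod t)) ^ (t - 1) = 1 :=
      ZMod.pow_card_sub_one_eq_one (div_ne_zero e7 e5)
    have e9 : Nat.Coprime g (t - 1) := (Nat.Prime.coprime_iff_not_dvd hg).mpr (hTg t ht).2
    have e10 : orderOf (((a : ℤ) : ZMod t) / ((c : ℤ) : ZMod t)) = 1 := by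
      have d1 := orderOf_dvd_of_pow_eq_one e6
      have d2 := orderOf_dvd_of_pow_eq_one e8
      have d3 := Nat.dvd_gcd d1 d2
      rw [e9] at d3
      exact Nat.dvd_one.mp d3
    rw [orderOf_eq_one_iff] at e10
    have e11 : ((a : ℤ) : ZMod t) = ((c : ℤ) : ZMod t) := by
      have := (div_eq_one_iff_eq e5).mp e10
      exact this
    have e12 : ((a - c : ℤ) : ZMod t) = 0 := by push_cast; rw [e11, sub_self]
    exact (ZMod.intCast_zmod_eq_zero_iff_dvd _ t).mp e12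
  have hpq : p ≠ q := by
    intro h
    have hcase : ∀ D D' : Finset ℕ, D ⊆ Q → D' ⊆ Q → Disjoint D D' → D ≠ ∅ →
        ∏ r ∈ D, r ≠ ∏ r ∈ D', r := by
      intro D D' hD hD' hdd hDne heq
      obtain ⟨r, hr⟩ := Finset.nonempty_iff_ne_empty.mpr hDne
      have h1 : r ∣ ∏ r ∈ D', r := by rw [← heq]; exact Finset.dvd_prod_of_mem _ hr
      obtain ⟨r', hr', hrr'⟩ := (Prime.dvd_finsetProd_iff (hQ r (hD hr)).prime _).mp h1
      have h2 : r = r' := (Nat.prime_dvd_prime_iff_eq (hQ r (hD hr)) (hQ r' (hD' hr'))).mp hrr'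
      rw [← h2] at hr'
      exact Finset.disjoint_left.mp hdd hr hr'
    rcases hne with h1 | h1
    · exact hcase D₁ D₂ hD₁ hD₂ hdis h1 h
    · exact hcase D₂ D₁ hD₂ hD₁ hdis.symm h1 h.symm
  -- heights
  have hcardD : D₁.card + D₂.card ≤ Q.card := by
    rw [← Finset.card_union_of_disjoint hdis]
    exact Finset.card_le_card (Finset.union_subset hD₁ hD₂)
  have hHpow : ∀ n : ℕ, (n : ℝ) ^ g ≤ H ^ (D₁.card + D₂.card) → (n : ℝ) ≤ H ^ ((Q.card : ℝ) / g) := by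
    intro n hn
    have h1 : (n : ℝ) ^ g ≤ H ^ Q.card := hn.trans (pow_le_pow_right₀ hH hcardD)
    have hgR : (0 : ℝ) < g := by exact_mod_cast hg0
    have h2 : (n : ℝ) = ((n : ℝ) ^ g) ^ ((1 : ℝ) / g) := by
      rw [← Real.rpow_natCast, ← Real.rpow_mul (Nat.cast_nonneg n), mul_one_div_cancel hgR.ne',
        Real.rpow_one]
    rw [h2]
    calc ((n : ℝ) ^ g) ^ ((1 : ℝ) / g) ≤ (H ^ Q.card) ^ ((1 : ℝ) / g) :=
          Real.rpow_le_rpow (by positivity) h1 (by positivity)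
      _ = H ^ ((Q.card : ℝ) / g) := by
          rw [← Real.rpow_natCast, ← Real.rpow_mul (by linarith)]
          congr 1
          ring
  have hN1H : (N1 : ℝ) ≤ H ^ (D₁.card + D₂.card) := by
    simp only [hN1]
    rw [Nat.cast_mul, Nat.cast_prod, Nat.cast_prod, pow_add]
    apply mul_le_mul
    · exact prod_le_pow_real _ _ _ (fun r _ => Nat.cast_nonneg _) (fun r hr => hH1 r (hD₁ hr))
    · exact prod_le_pow_real _ _ _ (fun r _ => Nat.cast_nonneg _) (fun r hr => hH2 r (hD₂ hr))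
    · positivity
    · positivity
  have hN2H : (N2 : ℝ) ≤ H ^ (D₁.card + D₂.card) := by
    simp only [hN2]
    rw [Nat.cast_mul, Nat.cast_prod, Nat.cast_prod, pow_add]
    apply mul_le_mul
    · exact prod_le_pow_real _ _ _ (fun r _ => Nat.cast_nonneg _) (fun r hr => hH2 r (hD₁ hr))
    · exact prod_le_pow_real _ _ _ (fun r _ => Nat.cast_nonneg _) (fun r hr => hH1 r (hD₂ hr))
    · positivity
    · positivity
  have hwnH : (wn : ℝ) ≤ H ^ ((Q.card : ℝ) / g) := by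
    apply hHpow
    refine le_trans ?_ hN1H
    have : wn ^ g ≤ N1 := by
      rw [hN1']
      calc wn ^ g = 1 * (wn ^ g * 1) := by ring
        _ ≤ Cm * (wn ^ g * p ^ z) := Nat.mul_le_mul hCm0
          (Nat.mul_le_mul le_rfl (Nat.one_le_iff_ne_zero.mpr (pow_ne_zero _ hp0.ne')))
    exact_mod_cast this
  have hwdH : (wd : ℝ) ≤ H ^ ((Q.card : ℝ) / g) := by
    apply hHpow
    refine le_trans ?_ hN2H
    have : wd ^ g ≤ N2 := by
      rw [hN2']
      calc wd ^ g = 1 * (wd ^ g * 1) := by ring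
        _ ≤ Cm * (wd ^ g * q ^ z) := Nat.mul_le_mul hCm0
          (Nat.mul_le_mul le_rfl (Nat.one_le_iff_ne_zero.mpr (pow_ne_zero _ hq0.ne')))
    exact_mod_cast this
  have habs : |(a : ℝ)| = (wd : ℝ) := by
    rw [ha]; push_cast
    rw [abs_mul, Nat.abs_cast]
    rcases hs'2 with h | h <;> rw [h] <;> simp
  have habc : |(c : ℝ)| = (wn : ℝ) := by
    rw [hc]; push_cast; exact Nat.abs_cast _
  have hmaxac : max |(a : ℝ)| |(c : ℝ)| ≤ H ^ ((Q.card : ℝ) / g) := by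
    rw [habs, habc]; exact max_le hwdH hwnH
  have hHq1 : 1 ≤ H ^ ((Q.card : ℝ) / g) := Real.one_le_rpow hH (by positivity)
  have hpP : (p : ℝ) ≤ P ^ Q.card := by
    rw [hp, Nat.cast_prod]
    refine (prod_le_pow_real _ _ _ (fun r _ => Nat.cast_nonneg _) (fun r hr => hP r (hD₁ hr))).trans ?_
    exact pow_le_pow_right₀ hP1 (Finset.card_le_card hD₁)
  have hqP : (q : ℝ) ≤ P ^ Q.card := by
    rw [hq, Nat.cast_prod]
    refine (prod_le_pow_real _ _ _ (fun r _ => Nat.cast_nonneg _) (fun r hr => hP r (hD₂ hr))).trans ?_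
    exact pow_le_pow_right₀ hP1 (Finset.card_le_card hD₂)
  have ha0 : a ≠ 0 := by
    rw [ha]
    apply mul_ne_zero
    · rcases hs'2 with h | h <;> rw [h] <;> norm_num
    · exact_mod_cast hwd0.ne'
  have hc0 : c ≠ 0 := by rw [hc]; exact_mod_cast hwn0.ne'
  have hgR1 : (1 : ℝ) ≤ g := by exact_mod_cast hg0
  have hbase1 : (3 : ℝ) ≤ ((M * (N + 1) : ℝ) * ((g : ℝ) ^ K * 3 ^ (N + M))) := by
    have h1 : (1 : ℝ) ≤ (M : ℝ) := by exact_mod_cast hM
    have h2 : (0 : ℝ) ≤ (N : ℝ) := Nat.cast_nonneg _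
    have h3 : (1 : ℝ) ≤ (M : ℝ) * (N + 1) := by nlinarith
    have h4 : (1 : ℝ) ≤ (g : ℝ) ^ K := one_le_pow₀ hgR1
    have h5 : (3 : ℝ) ≤ 3 ^ (N + M) := by
      calc (3 : ℝ) = 3 ^ 1 := by norm_num
        _ ≤ 3 ^ (N + M) := pow_le_pow_right₀ (by norm_num) (by omega)
    calc (3 : ℝ) = 1 * (1 * 3) := by norm_num
      _ ≤ _ := by
        apply mul_le_mul h3 _ (by norm_num) (by positivity)
        apply mul_le_mul h4 h5 (by norm_num) (by positivity)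
  -- only t with x t ≥ 1 matter
  set T' : Finset ℕ := T.filter (fun t => 1 ≤ x t) with hT'
  have hTT' : (∏ t ∈ T, (t : ℝ) ^ x t) = ∏ t ∈ T', (t : ℝ) ^ x t := by
    rw [hT', Finset.prod_filter]
    apply Finset.prod_congr rfl
    intro t _
    split_ifs with h
    · rfl
    · have : x t = 0 := by omega
      rw [this, pow_zero]
  rw [hTT']
  rcases Nat.eq_zero_or_pos z with hz0 | hz0
  · -- direct case
    have hdv : ∀ t ∈ T', (t : ℤ) ^ x t ∣ a - c := by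
      intro t ht'
      obtain ⟨ht, hx1⟩ := Finset.mem_filter.mp ht'
      have h1 := hcongr t ht
      rw [hz0, pow_zero, pow_zero, mul_one, mul_one] at h1
      have htg : ¬ t ∣ g := by
        intro h
        exact (hTg t ht).1 ((Nat.prime_dvd_prime_iff_eq (hT t ht) hg).mp h)
      obtain ⟨ci, hci⟩ := exists_inv_mod t (x t) c (hT t ht) (hct t ht)
      obtain ⟨g', hg'⟩ := root_exp t g (x t) (hT t ht) htg
      have hac1 := hac t ht hx1
      have e1 : (t : ℤ) ∣ a * ci - 1 := by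
        have : a * ci - 1 = (a - c) * ci + (c * ci - 1) := by ring
        rw [this]
        exact dvd_add (Dvd.dvd.mul_right hac1 _) ((dvd_pow_self _ (by omega)).trans hci)
      have e2 := hg' (a * ci) e1
      have e3 : (t : ℤ) ^ x t ∣ (a * ci) ^ g - 1 := by
        have h4 : (a * ci) ^ g - 1 = (a ^ g - c ^ g) * ci ^ g + ((c * ci) ^ g - 1) := by
          rw [mul_pow, mul_pow]; ring
        rw [h4]
        apply dvd_add (Dvd.dvd.mul_right h1 _)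
        have := sub_dvd_pow_sub_pow (c * ci) 1 g
        rw [one_pow] at this
        exact hci.trans this
      have e4 : (t : ℤ) ^ x t ∣ (a * ci) ^ (g * g') - 1 := by
        rw [pow_mul]
        have := sub_dvd_pow_sub_pow ((a * ci) ^ g) 1 g'
        rw [one_pow] at this
        exact e3.trans this
      have e5 : (t : ℤ) ^ x t ∣ a * ci - 1 := by
        have := dvd_sub e4 e2
        have h6 : (a * ci) ^ (g * g') - 1 - ((a * ci) ^ (g * g') - a * ci) = a * ci - 1 := by ring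
        rwa [h6] at this
      have h7 : a - c = (a * ci - 1) * c - a * (c * ci - 1) := by ring
      rw [h7]
      exact dvd_sub (Dvd.dvd.mul_right e5 _) (Dvd.dvd.mul_left hci _)
    have hne0 : a - c ≠ 0 := by
      intro h0
      have h1 : a = c := sub_eq_zero.mp h0
      have h2 : wd = wn := by
        have := congrArg (fun y : ℤ => |(y : ℝ)|) h1
        rw [habs, habc] at this
        exact_mod_cast this
      have hkey : ∀ D D' : Finset ℕ, D ⊆ Q → D' ⊆ Q → Disjoint D D' → D ≠ ∅ → ∀ f f' : ℕ → ℕ,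
          (∏ k ∈ Kn, k ^ f k) * ∏ r ∈ D, r ^ (zz r / g) ≠
          (∏ k ∈ Kn, k ^ f' k) * ∏ r ∈ D', r ^ (zz r / g) := by
        intro D D' hD hD' hdd hDne f f' heq
        obtain ⟨r, hr⟩ := Finset.nonempty_iff_ne_empty.mpr hDne
        have hrQ := hD hr
        have hz1 : 1 ≤ zz r / g := by
          have h3 := hzz r hrQ
          rw [hz0] at h3
          have h4 := Nat.dvd_of_mod_eq_zero h3
          exact Nat.div_pos (Nat.le_of_dvd (hzz1 r hrQ) h4) hg0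
        have h5 : r ∣ (∏ k ∈ Kn, k ^ f k) * ∏ r ∈ D, r ^ (zz r / g) := by
          apply Dvd.dvd.mul_left
          exact (dvd_pow_self r (by omega)).trans
            (Finset.dvd_prod_of_mem (fun r => r ^ (zz r / g)) hr)
        rw [heq] at h5
        have hrp := hQ r hrQ
        rcases (Nat.Prime.dvd_mul hrp).mp h5 with h6 | h6
        · obtain ⟨k, hk, hrk⟩ := (Prime.dvd_finsetProd_iff hrp.prime _).mp h6
          have h7 := hrp.dvd_of_dvd_pow hrk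
          have h8 : r = k := (Nat.prime_dvd_prime_iff_eq hrp (hKn k hk)).mp h7
          rw [← h8] at hk
          exact Finset.disjoint_left.mp hQK hrQ hk
        · obtain ⟨k, hk, hrk⟩ := (Prime.dvd_finsetProd_iff hrp.prime _).mp h6
          have h7 := hrp.dvd_of_dvd_pow hrk
          have h8 : r = k := (Nat.prime_dvd_prime_iff_eq hrp (hQ k (hD' hk))).mp h7
          rw [← h8] at hk
          exact Finset.disjoint_left.mp hdd hr hk
      rcases hne with h3 | h3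
      · exact hkey D₁ D₂ hD₁ hD₂ hdis h3 Ep Em h2.symm
      · exact hkey D₂ D₁ hD₂ hD₁ hdis.symm h3 Em Ep h2
    have hdvn : (∏ t ∈ T', t ^ x t) ∣ (a - c).natAbs := by
      refine Finset.prod_dvd_of_isRelPrime ?_ ?_
      · intro t ht s hs hts
        rw [Function.onFun, ← Nat.coprime_iff_isRelPrime]
        exact Nat.Coprime.pow _ _ ((Nat.coprime_primes (hT t (Finset.mem_filter.mp ht).1)
          (hT s (Finset.mem_filter.mp hs).1)).mpr hts)
      · intro t ht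
        rw [← Int.natCast_dvd]
        push_cast
        exact hdv t ht
    have hle : (∏ t ∈ T', t ^ x t) ≤ (a - c).natAbs := Nat.le_of_dvd (Int.natAbs_pos.mpr hne0) hdvn
    have hleR : (∏ t ∈ T', (t : ℝ) ^ x t) ≤ |((a - c : ℤ) : ℝ)| := by
      have h1 : ((∏ t ∈ T', t ^ x t : ℕ) : ℝ) ≤ (((a - c).natAbs : ℕ) : ℝ) := by exact_mod_cast hle
      rw [Nat.cast_natAbs] at h1
      push_cast at h1
      push_cast
      exact h1
    refine hleR.trans ?_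
    have h1 : |((a - c : ℤ) : ℝ)| ≤ 2 * H ^ ((Q.card : ℝ) / g) := by
      push_cast
      refine (abs_sub _ _).trans ?_
      rw [habs, habc]
      linarith
    refine h1.trans ?_
    have h2 : (2 : ℝ) ≤ ((M * (N + 1) : ℝ) * ((g : ℝ) ^ K * 3 ^ (N + M))) ^ 4 * (P ^ Q.card) ^ N := by
      have h3 : (1 : ℝ) ≤ (P ^ Q.card) ^ N := one_le_pow₀ (one_le_pow₀ hP1)
      have h4 : (2 : ℝ) ≤ ((M * (N + 1) : ℝ) * ((g : ℝ) ^ K * 3 ^ (N + M))) ^ 4 := by
        calc (2 : ℝ) ≤ 3 ^ 4 := by norm_num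
          _ ≤ _ := pow_le_pow_left₀ (by norm_num) hbase1 4
      nlinarith
    have h5 : H ^ ((Q.card : ℝ) / g) ≤ (H ^ ((Q.card : ℝ) / g)) ^ M := by
      calc H ^ ((Q.card : ℝ) / g) = (H ^ ((Q.card : ℝ) / g)) ^ 1 := by rw [pow_one]
        _ ≤ _ := pow_le_pow_right₀ hHq1 hM
    apply mul_le_mul h2 h5 (by positivity) (by positivity)
  · -- main case
    have hcop : Nat.Coprime z g := by
      rw [Nat.coprime_comm]
      apply (Nat.Prime.coprime_iff_not_dvd hg).mpr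
      intro h
      exact absurd (Nat.le_of_dvd hz0 h) (not_le.mpr hz)
    have hcore := core_thm T' g z M N K I p q a c m x
      (fun t ht => hT t (Finset.mem_filter.mp ht).1) hg0 hz.le hcop hM hMg hK hKI hIK hp0 hq0 hpq ha0
      hc0 (by
        intro t ht'
        obtain ⟨ht, hx1⟩ := Finset.mem_filter.mp ht'
        refine ⟨?_, hqt t ht, hct t ht, hm t ht, ?_, hac t ht hx1, hcongr t ht, hx t ht⟩
        · intro h
          exact (hTg t ht).1 ((Nat.prime_dvd_prime_iff_eq (hT t ht) hg).mp h)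
        · exact hmod t ht)
    refine hcore.trans ?_
    have hPmax : (max (p : ℝ) (q : ℝ)) ^ N ≤ (P ^ Q.card) ^ N :=
      pow_le_pow_left₀ (le_max_of_le_left (Nat.cast_nonneg _)) (max_le hpP hqP) N
    have hAmax : (max |(a : ℝ)| |(c : ℝ)|) ^ M ≤ (H ^ ((Q.card : ℝ) / g)) ^ M :=
      pow_le_pow_left₀ (le_max_of_le_left (abs_nonneg _)) hmaxac M
    apply mul_le_mul _ hAmax (by positivity) (by positivity)
    exact mul_le_mul_of_nonneg_left hPmax (by positivity)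

end H85STAR
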